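import Pool.Agent.Y213.CB.Core

/-! Adelic points of bounded degree in the closure of the group of global points. -/

set_option autoImplicit false

namespace Pool.Agent.Y213.CB

open MvPolynomial NumberField Pool.Agent.H901R3.MS WeierstrassCurve IsDedekindDomain
open Pool.Agent.Y213.EC Pool.Agent.TH954 Pool.Agent.TH942 Pool.Agent.Y213.BD
open Pool.Agent.Y213.T6 (loc_valG bc_eq shortInt_sw)

/-- the places of `F` above the elements of `S` -/
def Above (S : Finset ℕ) (F : Type) [Field F] [NumberField F] : Set (HeightOneSpectrum (𝓞 F)) :=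
  {w | ∃ p ∈ S, ((p : ℕ) : 𝓞 F) ∈ w.asIdeal}

/-- the equations over `F` of the member with the parameters `y` -/
noncomputable def mbrF {K : Type} [Field K] {r n q : ℕ} (G : Fin q → Pol (𝓞 K) r n)
    (F : Type) [Field F] [Algebra K F] (y : Fin n → K) : Set (MvPolynomial (Fin r × Fin 3) F) :=
  Set.range fun e => eval₂ (C.comp ((algebraMap K F).comp (algebraMap (𝓞 K) K)))
    (Sum.elim X (fun i => C (algebraMap K F (y i)))) (G e)

theorem onX_mbrF {K : Type} [Field K] {r n q : ℕ} (G : Fin q → Pol (𝓞 K) r n)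
    (F : Type) [Field F] [Algebra K F] (t : Fin n → K)
    {L : Type} [Field L] [Algebra F L] (u : Fin r → Fin 3 → L) :
    OnX (mbrF G F t) u ↔ ∀ e, vl ((algebraMap F L).comp ((algebraMap K F).comp
      (algebraMap (𝓞 K) K))) (G e) u (fun i => algebraMap F L (algebraMap K F (t i))) = 0 := by
  unfold OnX mbrF
  rw [Set.forall_mem_range]
  refine forall_congr' fun e => ?_
  have h1 : aeval (fun p : Fin r × Fin 3 => u p.1 p.2)
      (eval₂ (C.comp ((algebraMap K F).comp (algebraMap (𝓞 K) K)))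
        (Sum.elim X (fun i => C (algebraMap K F (t i)))) (G e)) =
      vl ((algebraMap F L).comp ((algebraMap K F).comp (algebraMap (𝓞 K) K))) (G e) u
        (fun i => algebraMap F L (algebraMap K F (t i))) := by
    rw [← AlgHom.coe_toRingHom, hom_eval₂]
    unfold vl
    congr 1
    · ext x
      simp
    · funext x
      rcases x with ij | i <;> simp
  rw [h1]

/-- over some extension `F` of degree `m + 1`, the closure of the group of `F`-points meets the
adelic points of the member with the parameters `y` -/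
def ClPt {K : Type} [Field K] [NumberField K] {r n q : ℕ} (a b : 𝓞 K)
    (G : Fin q → Pol (𝓞 K) r n) (m : ℕ) (S : Finset ℕ) (y : Fin n → K) : Prop :=
  ∃ (F : Type) (_ : Field F) (_ : NumberField F) (_ : Algebra K F), Module.finrank K F = m + 1 ∧
    ∃ x ∈ adelicClosure (E := sw (algebraMap K F a) (algebraMap K F b)) (n := r) (Above S F)
      Set.univ, ∀ v, OnX (mbrF G F y) (fun i => crd (x v i))

theorem finite_above (F : Type) [Field F] [NumberField F] (T : Finset ℕ) (hT : ∀ p ∈ T, p ≠ 0) :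
    {w : HeightOneSpectrum (𝓞 F) | ∃ p ∈ T, ((p : ℕ) : 𝓞 F) ∈ w.asIdeal}.Finite := by
  have h1 : {w : HeightOneSpectrum (𝓞 F) | ∃ p ∈ T, ((p : ℕ) : 𝓞 F) ∈ w.asIdeal} =
      ⋃ p ∈ T, {w : HeightOneSpectrum (𝓞 F) | ((p : ℕ) : 𝓞 F) ∈ w.asIdeal} := by
    ext w
    simp
  rw [h1]
  refine Set.Finite.biUnion T.finite_toSet fun p hp => ?_
  have h2 : (Ideal.span {((p : ℕ) : 𝓞 F)} : Ideal (𝓞 F)) ≠ 0 := by
    rw [Ne, Ideal.zero_eq_bot, Ideal.span_singleton_eq_bot, Nat.cast_eq_zero]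
    exact hT p hp
  refine (Ideal.finite_factors h2).subset fun w hw => ?_
  rw [Set.mem_setOf_eq, Ideal.dvd_span_singleton]
  exact hw

open scoped Classical in
theorem hyp_of_cl {K : Type} [Field K] [NumberField K] {r n q : ℕ} (a b : 𝓞 K)
    (hd : 4 * a ^ 3 + 27 * b ^ 2 ≠ 0) (G : Fin q → Pol (𝓞 K) r n)
    (d : Fin q → Fin r → ℕ) (hG : ∀ e, MHomog (G e) (d e)) (m : ℕ) (S : Finset ℕ)
    (hS : ∀ p ∈ S, p.Prime) (p₂ : ℕ) (hp₂ : 1 ≤ p₂) (hSp : ∀ p ∈ S, p < p₂) (y : Fin n → 𝓞 K)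
    (h : ClPt a b G m S (fun i => (y i : K))) : Hyp a b G m p₂ y := by
  obtain ⟨F, iF, iN, iA, hdeg, x, hx, hxy⟩ := h
  intro T hT
  have hdK : Disc (a : K) (b : K) := disc_ne hd
  have hinj : Function.Injective (algebraMap (𝓞 K) (𝓞 F)) :=
    FaithfulSMul.algebraMap_injective (𝓞 K) (𝓞 F)
  set aF : 𝓞 F := algebraMap (𝓞 K) (𝓞 F) a with haF
  set bF : 𝓞 F := algebraMap (𝓞 K) (𝓞 F) b with hbF
  have hdF : 4 * aF ^ 3 + 27 * bF ^ 2 ≠ 0 := by
    intro h0
    apply hd
    apply hinj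
    rw [map_zero, ← h0, haF, hbF]
    simp only [map_add, map_mul, map_pow, map_ofNat]
  have hE : ShortInt (sw (algebraMap K F a) (algebraMap K F b)) := shortInt_sw aF bF hdF
  have hT0 : ∀ p ∈ T.filter Nat.Prime, p ≠ 0 := fun p hp =>
    (Finset.mem_filter.1 hp).2.ne_zero
  have hfinT := finite_above F (T.filter Nat.Prime) hT0
  set TF : Finset (HeightOneSpectrum (𝓞 F)) := hfinT.toFinset with hTF
  have hTG : ∀ v ∈ TF, v ∉ Above S F := by
    intro v hv hvS
    rw [hTF, Set.Finite.mem_toFinset] at hv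
    obtain ⟨p, hp, hpv⟩ := hv
    obtain ⟨p', hp', hpv'⟩ := hvS
    rw [Finset.mem_filter] at hp
    have h1 : p ≠ p' := by
      intro h2
      have h3 := hT p hp.1
      have h4 := hSp p' hp'
      omega
    have h2 : Nat.Coprime p p' := (Nat.coprime_primes hp.2 (hS p' hp')).2 h1
    obtain ⟨u, w, huw⟩ := (Nat.isCoprime_iff_coprime.2 h2)
    apply v.isPrime.ne_top
    rw [Ideal.eq_top_iff_one]
    have h3 : (1 : 𝓞 F) = (u : 𝓞 F) * (p : 𝓞 F) + (w : 𝓞 F) * (p' : 𝓞 F) := by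
      have h4 := congrArg (fun z : ℤ => (z : 𝓞 F)) huw
      push_cast at h4
      exact h4.symm
    rw [h3]
    exact v.asIdeal.add_mem (v.asIdeal.mul_mem_left _ hpv) (v.asIdeal.mul_mem_left _ hpv')
  have hch : ∀ v : HeightOneSpectrum (𝓞 F), ∃ d : ℝ, 0 < d ∧ d ≤ 1 ∧
      ∀ T1 T2 : ((sw (algebraMap K F a) (algebraMap K F b)).baseChange
        (v.adicCompletion F)).toAffine.Point,
        (∀ j, ‖nc T1 j - nc T2 j‖ < d) → Big 2 (T1 - T2) := fun v =>
    (hE.si v).exists_near (two_ne v) (hE.disc_loc v) one_lt_two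
  choose dd hdd0 hdd1 hdd using hch
  have hfin : ∃ δ : ℝ, 0 < δ ∧ δ ≤ 1 ∧ ∀ v ∈ TF, δ ≤ dd v := by
    refine ⟨∏ v ∈ TF, dd v, Finset.prod_pos (fun v _ => hdd0 v),
      Finset.prod_le_one (fun v _ => (hdd0 v).le) (fun v _ => hdd1 v), fun v hv => ?_⟩
    rw [← Finset.mul_prod_erase TF dd hv]
    exact mul_le_of_le_one_right (hdd0 v).le
      (Finset.prod_le_one (fun v _ => (hdd0 v).le) (fun v _ => hdd1 v))
  obtain ⟨δ, hδ0, hδ1, hδ⟩ := hfin
  obtain ⟨Q, -, hQ⟩ := hx
    (TF.preimage (Subtype.val : {v : HeightOneSpectrum (𝓞 F) // v ∉ Above S F} → _)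
      Subtype.val_injective.injOn) δ hδ0
  obtain ⟨s, hs⟩ := memberC K (m := m) a b hdK G F hdeg Q
  refine ⟨s, ?_⟩
  intro p hp _ φ
  refine hs p φ y ?_
  intro k _ _ c hdc ψ hψ w₀ hw₀ red₀ hred₀ e
  have hp0 : p ≠ 0 := (Fact.out : p.Prime).ne_zero
  haveI : CharP k p := charP_of_injective_ringHom c.injective p
  have hmem : hspG p hp0 ψ ∈ TF := by
    rw [hTF, Set.Finite.mem_toFinset]
    refine ⟨p, Finset.mem_filter.2 ⟨hp, Fact.out⟩, ?_⟩
    rw [mem_hspG, map_natCast, CharP.cast_eq_zero]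
  have hnS := hTG _ hmem
  obtain ⟨w, hw, hwA⟩ := exists_place_g p hp0 ψ
  have hwK : ∀ x : 𝓞 K, algebraMap F ((hspG p hp0 ψ).adicCompletion F)
      (algebraMap K F (x : K)) ∈ w.A ∧ w.r (algebraMap F ((hspG p hp0 ψ).adicCompletion F)
        (algebraMap K F (x : K))) = c.comp φ x := by
    intro x
    have h1 := hw (algebraMap (𝓞 K) (𝓞 F) x)
    rw [hψ x] at h1
    exact h1
  obtain ⟨red, hred1, hred2, hred3⟩ := exists_redG w
    (a := algebraMap F ((hspG p hp0 ψ).adicCompletion F) (algebraMap K F (a : K)))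
    (b := algebraMap F ((hspG p hp0 ψ).adicCompletion F) (algebraMap K F (b : K)))
    (a' := c.comp φ a) (b' := c.comp φ b) (hwK a).1 (hwK b).1 (hwK a).2 (hwK b).2 hdc
    ((sw (algebraMap K F a) (algebraMap K F b)).baseChange ((hspG p hp0 ψ).adicCompletion F))
    (bc_eq _ _ _)
  have hbig : ∀ (u : ((sw (algebraMap K F a) (algebraMap K F b)).baseChange
      ((hspG p hp0 ψ).adicCompletion F)).toAffine.Point) (R : ℝ), 1 < R → Big R u →
      red u = 0 := by
    intro u R hR1 hu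
    rcases u with _ | ⟨x, y, h⟩
    · exact map_zero red
    · apply hred1
      intro hxA
      have h2 := hu x y h rfl
      have h3 := (hwA x).2 hxA
      linarith
  have hredx : ∀ i, red (x ⟨hspG p hp0 ψ, hnS⟩ i) = red₀ (Q i) := by
    intro i
    have h1 := hQ ⟨hspG p hp0 ψ, hnS⟩ (Finset.mem_preimage.mpr hmem) i
    rw [← crd_loc' (L := (hspG p hp0 ψ).adicCompletion F)
      (sw (algebraMap K F a) (algebraMap K F b))] at h1
    have h2 : Big 2 (x ⟨hspG p hp0 ψ, hnS⟩ i - locHom (L := (hspG p hp0 ψ).adicCompletion F)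
        (sw (algebraMap K F a) (algebraMap K F b)) (Q i)) := by
      apply hdd (hspG p hp0 ψ)
      intro j
      exact (nc_of_near (hE.si _) hδ0 hδ1 h1 j).trans_le (hδ _ hmem)
    have h3 := hbig _ 2 one_lt_two h2
    rw [map_sub, sub_eq_zero] at h3
    rw [h3]
    exact red_loc F p hp0 ψ w₀ hw₀ ((hspG p hp0 ψ).adicCompletion F) w hw hred₀ red
      (map_zero red) hred1 hred2 (Q i)
  have h5 := (onX_mbrF G F _ _).1 (hxy ⟨hspG p hp0 ψ, hnS⟩) e
  choose u hu0 hu using fun i => hred3 (x ⟨hspG p hp0 ψ, hnS⟩ i)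
  have h6 := (loc_valG w ((algebraMap F ((hspG p hp0 ψ).adicCompletion F)).comp
    ((algebraMap K F).comp (algebraMap (𝓞 K) K))) (c.comp φ) (fun x => hwK x)
    ((algebraMap F ((hspG p hp0 ψ).adicCompletion F)).comp
    ((algebraMap K F).comp (algebraMap (𝓞 K) K))) (c.comp φ)
    (fun x => hwK x) (fun i => crd (x ⟨hspG p hp0 ψ, hnS⟩ i))
    (fun i => rep (red (x ⟨hspG p hp0 ψ, hnS⟩ i))) u hu (G e) (d e) (hG e) y).2
  have h7 : vl ((algebraMap F ((hspG p hp0 ψ).adicCompletion F)).comp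
      ((algebraMap K F).comp (algebraMap (𝓞 K) K)))
      (G e) (fun i => crd (x ⟨hspG p hp0 ψ, hnS⟩ i)) (fun i =>
      ((algebraMap F ((hspG p hp0 ψ).adicCompletion F)).comp
        ((algebraMap K F).comp (algebraMap (𝓞 K) K))) (y i)) = 0 := h5
  rw [h7, mul_zero, Place.r_zero] at h6
  simp only [hredx] at h6
  exact h6.symm

end Pool.Agent.Y213.CB
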