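import Pool.Agent.Y213.CB.MemS

/-! Families of closed subvarieties of `E ^ r`: members which survive the sieve over an extension
of bounded degree. -/

set_option autoImplicit false

namespace Pool.Agent.Y213.CB

open WeierstrassCurve Pool.Agent.H901R3.MS MvPolynomial NumberField Pool.Agent.Y213.EC
open Pool.Agent.Y213.BD Pool.Agent.TH954 Pool.Agent.TH942 IsDedekindDomain

open scoped LinearAlgebra.Projectivization

theorem kill_any {k : Type} [Field k] {a b : k} (L : ℕ) (inst₁ inst₂ : DecidableEq k)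
    (h : letI := inst₁; ∀ P : Pt a b, L • P = 0) : letI := inst₂; ∀ P : Pt a b, L • P = 0 := by
  have e : inst₁ = inst₂ := Subsingleton.elim _ _
  subst e
  exact h

/-- the sieve condition at all places where `L` kills the group of the reduction -/
def RdnL {K : Type} [Field K] [NumberField K] {r n q : ℕ} (a b : 𝓞 K)
    (G : Fin q → Pol (𝓞 K) r n) (m L : ℕ)
    (y : Fin n → 𝓞 K) (s : Fin r → Pt (a : K) (b : K)) : Prop :=
  ∀ (p : ℕ) [Fact p.Prime] (φ : 𝓞 K →+* ZMod p),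
    (∀ [DecidableEq (ZMod p)] (P : Pt (φ a) (φ b)), L • P = 0) → RdnAt a b G m p φ y s

/-- the member `y` survives all sieves with all moduli -/
def HypL {K : Type} [Field K] [NumberField K] {r n q : ℕ} (a b : 𝓞 K)
    (G : Fin q → Pol (𝓞 K) r n) (m : ℕ) (y : Fin n → 𝓞 K) : Prop :=
  ∀ L : ℕ, 1 ≤ L → ∃ s : Fin r → Pt (a : K) (b : K), RdnL a b G m L y s

open scoped Classical in
/-- over some extension `F` of degree `m + 1` the member with the parameters `y` survives the sieve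
with all moduli -/
def SvPt {K : Type} [Field K] [NumberField K] {r n q : ℕ} (a b : 𝓞 K)
    (G : Fin q → Pol (𝓞 K) r n) (m : ℕ) (y : Fin n → K) : Prop :=
  ∃ (F : Type) (_ : Field F) (_ : NumberField F) (_ : Algebra K F), Module.finrank K F = m + 1 ∧
    ∀ L : ℕ, 1 ≤ L → ∃ (Q : Fin r → SPt (algebraMap K F a) (algebraMap K F b))
      (x : ∀ w : HeightOneSpectrum (𝓞 F), Fin r →
        ((sw (algebraMap K F a) (algebraMap K F b)).baseChange
          (w.adicCompletion F)).toAffine.Point),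
      (∀ w, OnX (mbrF G F y) (fun i => crd (x w i))) ∧
      ∀ w i, ∃ (z u : ((sw (algebraMap K F a) (algebraMap K F b)).baseChange
          (w.adicCompletion F)).toAffine.Point) (R : ℝ), 1 < R ∧ Big R u ∧
          x w i = locHom (L := w.adicCompletion F) (sw (algebraMap K F a) (algebraMap K F b))
            (Q i) + L • z + u

theorem hypL_of_sv {K : Type} [Field K] [NumberField K] {r n q : ℕ} (a b : 𝓞 K)
    (hd : Disc (a : K) (b : K)) (G : Fin q → Pol (𝓞 K) r n)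
    (d : Fin q → Fin r → ℕ) (hG : ∀ e, MHomog (G e) (d e)) (m : ℕ) (y : Fin n → 𝓞 K)
    (h : SvPt a b G m (fun i => (y i : K))) : HypL a b G m y := by
  obtain ⟨F, iF, iN, iA, hdeg, h⟩ := h
  intro L hL
  obtain ⟨Q, x, hx, hz⟩ := h L hL
  obtain ⟨s, hs⟩ := memberS K (m := m) a b hd G d hG F hdeg Q
  refine ⟨s, fun p _ φ hkill => ?_⟩
  exact hs p φ y L (fun P => hkill P) x (fun w _ => hx w) (fun w _ i => hz w i)

theorem coreHL (K : Type) [Field K] [NumberField K] (N : ℕ) (ω : Module.Basis (Fin N) ℤ (𝓞 K))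
    (r n q m : ℕ) (a b : 𝓞 K) (hd : Disc (a : K) (b : K)) (G : Fin q → Pol (𝓞 K) r n)
    (d : Fin q → Fin r → ℕ) (hG : ∀ e, MHomog (G e) (d e)) (k' : ℕ) (σ : K →+* ℂ)
    (hns : ∀ S : Fin r → Pt (toC σ a) (toC σ b), ∃ g : MvPolynomial (Fin n) ℂ, g ≠ 0 ∧
      g.support ⊆ Finset.finsuppAntidiag Finset.univ k' ∧
      ∀ y ∈ YS a b G m (toC σ) S, eval y g = 0)
    (ε : ℝ) (hε : 0 < ε) :
    ∃ H₀ : ℕ, 3 ≤ H₀ ∧ ∀ H : ℕ, H₀ ≤ H → ∃ FF : Finset (MvPolynomial (Fin n) K),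
      (FF.card : ℝ) ≤ (H : ℝ) ^ ε ∧ (∀ f ∈ FF, f ≠ 0 ∧ f.IsHomogeneous k') ∧
      ∀ c : Fin n × Fin N → ℤ, (∀ i, |c i| ≤ H) →
        HypL a b G m (W659.SA.vec ω c) →
        ∃ f ∈ FF, eval (fun i => ((W659.SA.vec ω c i : 𝓞 K) : K)) f = 0 := by
  classical
  have hFG : AddGroup.FG (Pt (a : K) (b : K)) := t_M1K K (a : K) (b : K) hd
  obtain ⟨R₀, hR⟩ := t_M2 (Pt (a : K) (b : K)) hFG
  obtain ⟨p₁, hp₁⟩ := trH K r n q m a b G d hG _ σ (disc_of σ hd) hns
  obtain ⟨C₀, hC1, hC⟩ := Pool.Agent.W305.SA.DET.main K N ω n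
    (Finset.finsuppAntidiag Finset.univ k')
  obtain ⟨H₀, hH₀, hmain⟩ := primesE K a b hd p₁ (R₀ * r) C₀ ε hε
  refine ⟨H₀, hH₀, fun H hH => ?_⟩
  obtain ⟨T, L, hL, hT, hprod, hLR⟩ := hmain H hH
  obtain ⟨A, hAc, hAr⟩ := hR L hL
  choose κ₀ hκ₀ δ₀ hδ₀ using hAr
  have key : ∀ κ : Fin r → A, ∃ f : MvPolynomial (Fin n) K, f ≠ 0 ∧ f.IsHomogeneous k' ∧
      ∀ c : Fin n × Fin N → ℤ, (∀ i, |c i| ≤ H) →
        (∃ s : Fin r → Pt (a : K) (b : K), RdnL a b G m L (W659.SA.vec ω c) s ∧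
          ∀ i, κ i = ⟨κ₀ (s i), hκ₀ (s i)⟩) →
        eval (fun i => ((W659.SA.vec ω c i : 𝓞 K) : K)) f = 0 := by
    intro κ
    obtain ⟨f, hf0, hfΛ, hf⟩ := hC H T (fun p hp => by
        obtain ⟨_, hF, _⟩ := hT p hp
        exact hF.out) hprod
      {c | (∀ i, |c i| ≤ H) ∧ ∃ s : Fin r → Pt (a : K) (b : K), RdnL a b G m L (W659.SA.vec ω c) s ∧
          ∀ i, κ i = ⟨κ₀ (s i), hκ₀ (s i)⟩}
      (fun c hc => hc.1) (by
        intro p hp
        obtain ⟨hp1, hF, φ, hdφ, hkill⟩ := hT p hp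
        haveI := hF
        haveI : CharP (AlgebraicClosure (ZMod p)) p :=
          charP_of_injective_ringHom (cc p).injective p
        obtain ⟨S, hS⟩ := red_classC K (m := m) a b G L (fun i => (κ i).1) p φ hdφ hkill
        obtain ⟨g, hg0, hgs, hg⟩ := hp₁ p hF.out (by omega) (AlgebraicClosure (ZMod p))
          ((cc p).comp φ) S
        refine ⟨AlgebraicClosure (ZMod p), inferInstance, inferInstance, (cc p).comp φ, g, hg0,
          hgs, ?_⟩
        rintro c ⟨_, s, hs, hκ⟩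
        refine hg _ (hS (W659.SA.vec ω c) s (hs p φ (fun {_} P => kill_any L _ _ hkill P)) fun i => ⟨δ₀ (s i), ?_⟩)
        rw [hκ i]
        exact hδ₀ (s i))
    exact ⟨f, hf0, homog_of_supp hfΛ, fun c hc h => hf c ⟨hc, h⟩⟩
  choose f hf0 hfh hf using key
  refine ⟨Finset.univ.image f, ?_, ?_, ?_⟩
  · refine le_trans ?_ hLR
    have hQ : Fintype.card (Fin r → A) ≤ L ^ (R₀ * r) := by
      rw [Fintype.card_fun, Fintype.card_fin, Fintype.card_coe, pow_mul]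
      exact Nat.pow_le_pow_left hAc r
    have h1 : (Finset.univ.image f).card ≤ L ^ (R₀ * r) := (Finset.card_image_le).trans hQ
    exact_mod_cast h1
  · intro g hg
    rw [Finset.mem_image] at hg
    obtain ⟨x, _, rfl⟩ := hg
    exact ⟨hf0 x, hfh x⟩
  · intro c hc hdeg
    obtain ⟨s, hs⟩ := hdeg L hL
    exact ⟨f (fun i => ⟨κ₀ (s i), hκ₀ (s i)⟩), Finset.mem_image_of_mem _ (Finset.mem_univ _),
      hf _ c hc ⟨s, hs, fun i => rfl⟩⟩

theorem coreFL (K : Type) [Field K] [NumberField K] (N : ℕ) (ω : Module.Basis (Fin N) ℤ (𝓞 K))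
    (r n q m : ℕ) (a b : 𝓞 K) (hd : Disc (a : K) (b : K)) (G : Fin q → Pol (𝓞 K) r n)
    (d : Fin q → Fin r → ℕ) (hG : ∀ e, MHomog (G e) (d e)) (D : ℕ) (σ : K →+* ℂ)
    (hns : ∀ (S : Fin r → Pt (toC σ a) (toC σ b)) (x : Fin (D + 1) → Fin n → ℂ), (∀ l, x l ≠ 0) →
      (∀ l, x l ∈ YS a b G m (toC σ) S) → ∃ l l', l ≠ l' ∧ ∃ c : ℂ, x l = c • x l')
    (ε : ℝ) (hε : 0 < ε) :
    ∃ H₀ : ℕ, 3 ≤ H₀ ∧ ∀ H : ℕ, H₀ ≤ H → ∃ Z : Finset (ℙ K (Fin n → K)),
      (Z.card : ℝ) ≤ D * (H : ℝ) ^ ε ∧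
      ∀ (c : Fin n × Fin N → ℤ) (h0 : (fun i => ((W659.SA.vec ω c i : 𝓞 K) : K)) ≠ 0),
        (∀ i, |c i| ≤ H) → HypL a b G m (W659.SA.vec ω c) →
        Projectivization.mk K _ h0 ∈ Z := by
  classical
  have hFG : AddGroup.FG (Pt (a : K) (b : K)) := t_M1K K (a : K) (b : K) hd
  obtain ⟨R₀, hR⟩ := t_M2 (Pt (a : K) (b : K)) hFG
  obtain ⟨p₁, hp₁⟩ := trF K r n q m a b G d hG D σ (disc_of σ hd) hns
  obtain ⟨C₀, hC1, hC⟩ := Pool.Agent.W305.SA.DETF.main K N ω n D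
  obtain ⟨H₀, hH₀, hmain⟩ := primesE K a b hd p₁ (R₀ * r) C₀ ε hε
  refine ⟨H₀, hH₀, fun H hH => ?_⟩
  obtain ⟨T, L, hL, hT, hprod, hLR⟩ := hmain H hH
  obtain ⟨A, hAc, hAr⟩ := hR L hL
  choose κ₀ hκ₀ δ₀ hδ₀ using hAr
  -- the points of a class
  let P : (Fin r → A) → Set (ℙ K (Fin n → K)) := fun κ => {y | ∃ c : Fin n × Fin N → ℤ,
    (∀ i, |c i| ≤ H) ∧
    ∃ h : (fun i => ((W659.SA.vec ω c i : 𝓞 K) : K)) ≠ 0, y = Projectivization.mk K _ h ∧
      ∃ s : Fin r → Pt (a : K) (b : K), RdnL a b G m L (W659.SA.vec ω c) s ∧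
          ∀ i, κ i = ⟨κ₀ (s i), hκ₀ (s i)⟩}
  have key : ∀ κ : Fin r → A, ∃ Z : Finset (ℙ K (Fin n → K)), Z.card ≤ D ∧ P κ ⊆ Z := by
    intro κ
    apply pick
    intro f hf
    choose c hc hne hmk s hs hκ using hf
    have h1 : ∀ l, ∃ i, W659.SA.vec ω (c l) i ≠ 0 := by
      intro l
      obtain ⟨i, hi⟩ := Function.ne_iff.1 (hne l)
      refine ⟨i, fun h => hi ?_⟩
      simp only [h, Pi.zero_apply]
      simp
    obtain ⟨l, l', hll, z, hz⟩ := hC H T (fun p hp => by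
        obtain ⟨_, hF, _⟩ := hT p hp
        exact hF.out) hprod c hc h1 (by
      intro p hp
      obtain ⟨hp1, hF, φ, hdφ, hkill⟩ := hT p hp
      haveI := hF
      haveI : CharP (AlgebraicClosure (ZMod p)) p :=
        charP_of_injective_ringHom (cc p).injective p
      obtain ⟨S, hS⟩ := red_classC K (m := m) a b G L (fun i => (κ i).1) p φ hdφ hkill
      refine ⟨AlgebraicClosure (ZMod p), inferInstance, inferInstance, (cc p).comp φ, ?_⟩
      by_cases h0 : ∃ l, ∀ i, (cc p).comp φ (W659.SA.vec ω (c l) i) = 0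
      · exact Or.inl h0
      right
      push Not at h0
      obtain ⟨l, l', hll, z, hz⟩ := hp₁ p hF.out (by omega) (AlgebraicClosure (ZMod p))
        ((cc p).comp φ) S (fun l i => (cc p).comp φ (W659.SA.vec ω (c l) i)) (fun l h => by
          obtain ⟨i, hi⟩ := h0 l
          exact hi (congrFun h i)) (fun l => by
          refine hS (W659.SA.vec ω (c l)) (s l) (hs l p φ (fun {_} P => kill_any L _ _ hkill P)) fun i => ⟨δ₀ (s l i), ?_⟩
          rw [hκ l i]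
          exact hδ₀ (s l i))
      exact ⟨l, l', hll, z, fun i => congrFun hz i⟩)
    refine ⟨l, l', hll, ?_⟩
    rw [hmk l, hmk l', Projectivization.mk_eq_mk_iff']
    refine ⟨z, ?_⟩
    funext i
    exact (hz i).symm
  choose Z hZ1 hZ2 using key
  refine ⟨(Finset.univ : Finset (Fin r → A)).biUnion Z, ?_, ?_⟩
  · have h1 : ((Finset.univ : Finset (Fin r → A)).biUnion Z).card ≤ D * L ^ (R₀ * r) := by
      refine Finset.card_biUnion_le.trans ?_
      have hQ : Fintype.card (Fin r → A) ≤ L ^ (R₀ * r) := by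
        rw [Fintype.card_fun, Fintype.card_fin, Fintype.card_coe, pow_mul]
        exact Nat.pow_le_pow_left hAc r
      calc ∑ x : Fin r → A, (Z x).card ≤ ∑ _x : Fin r → A, D :=
            Finset.sum_le_sum fun x _ => hZ1 x
        _ = Fintype.card (Fin r → A) * D := by
            rw [Finset.sum_const, Finset.card_univ, smul_eq_mul]
        _ ≤ L ^ (R₀ * r) * D := Nat.mul_le_mul_right _ hQ
        _ = D * L ^ (R₀ * r) := mul_comm _ _
    have h2 : ((((Finset.univ : Finset (Fin r → A)).biUnion Z).card : ℕ) : ℝ) ≤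
        D * (L : ℝ) ^ (R₀ * r) := by
      exact_mod_cast h1
    exact h2.trans (mul_le_mul_of_nonneg_left hLR (Nat.cast_nonneg _))
  · intro c h0 hc hdeg
    obtain ⟨s, hs⟩ := hdeg L hL
    rw [Finset.mem_biUnion]
    exact ⟨fun i => ⟨κ₀ (s i), hκ₀ (s i)⟩, Finset.mem_univ _,
      hZ2 _ ⟨c, hc, h0, rfl, s, hs, fun i => rfl⟩⟩

end Pool.Agent.Y213.CB
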