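import Pool.Agent.Y213.CB.Core2

/-! Families of closed subvarieties of `E ^ r`, the sieve over all extensions of bounded degree,
with heights. -/

set_option autoImplicit false

namespace Pool.Agent.Y213.CB

open WeierstrassCurve Pool.Agent.H901R3.MS MvPolynomial NumberField Pool.Agent.Y213.EC
open Pool.Agent.Y213.BD Pool.Agent.TH954 Pool.Agent.TH942

open scoped LinearAlgebra.Projectivization

theorem svPt_smul {K : Type} [Field K] [NumberField K] {r n q m : ℕ} (a b : 𝓞 K)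
    (G : Fin q → Pol (𝓞 K) r n) (kk : Fin q → ℕ) (hX : ∀ e, XHomog (G e) (kk e))
    (y : Fin n → K) (u : K) (h : SvPt a b G m y) : SvPt a b G m (fun i => u * y i) := by
  obtain ⟨F, hF1, hF2, hF3, hdeg, h⟩ := h
  refine ⟨F, hF1, hF2, hF3, hdeg, fun L hL => ?_⟩
  obtain ⟨Q, x, hx, hz⟩ := h L hL
  refine ⟨Q, x, fun v => ?_, hz⟩
  have h0 := (onX_mbrF G F _ _).1 (hx v)
  rw [onX_mbrF]
  intro e
  have h1 : (fun i => algebraMap F (v.adicCompletion F) (algebraMap K F (u * y i))) =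
      fun i => algebraMap F (v.adicCompletion F) (algebraMap K F u) *
        algebraMap F (v.adicCompletion F) (algebraMap K F (y i)) := by
    funext i
    rw [map_mul, map_mul]
  rw [h1, vl_xscale _ (G e) (kk e) (hX e), h0 e, mul_zero]

theorem partAL (K : Type) [Field K] [NumberField K] (r n q : ℕ) (I : Finset ℕ) (a b : 𝓞 K)
    (hd : 4 * a ^ 3 + 27 * b ^ 2 ≠ 0) (G : Fin q → Pol (𝓞 K) r n)
    (d : Fin q → Fin r → ℕ) (kk : Fin q → ℕ) (hG : ∀ e, MHomog (G e) (d e))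
    (hX : ∀ e, XHomog (G e) (kk e)) (k' : ℕ) (hk : 1 ≤ k') (σ : K →+* ℂ)
    (hns : ∀ m ∈ I, ∀ S : Fin r → Pt (toC σ a) (toC σ b), ∃ g : MvPolynomial (Fin n) ℂ, g ≠ 0 ∧
      g.IsHomogeneous k' ∧ ∀ y : ℙ ℂ (Fin n → ℂ), y.rep ∈ YS a b G m (toC σ) S →
        eval y.rep g = 0)
    (ε : ℝ) (hε : 0 < ε) :
    ∃ C : ℝ, ∀ B : ℝ, 1 ≤ B → ∃ FF : Finset (MvPolynomial (Fin n) K),
      (FF.card : ℝ) ≤ C * B ^ ε ∧ (∀ f ∈ FF, f ≠ 0 ∧ f.IsHomogeneous k') ∧
      ∀ y : ℙ K (Fin n → K), (∃ m ∈ I, SvPt a b G m y.rep) → y.mulHeight ≤ B →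
        ∃ f ∈ FF, eval y.rep f = 0 := by
  classical
  have hdK := disc_ne hd
  obtain ⟨N, ω, C, hC0, hC⟩ := reduce K n
  set ε' : ℝ := ε / ((n : ℝ) + 1) with hε'
  have hε'0 : 0 < ε' := by positivity
  have hcore : ∀ m : I, _ := fun m => coreHL K N ω r n q m.1 a b hdK G d hG k' σ (by
    intro S
    obtain ⟨g, hg0, hg1, hg2⟩ := hns m.1 m.2 S
    refine ⟨g, hg0, supp_of_homog hg1, fun y hy => ?_⟩
    by_cases hy0 : y = 0
    · rw [hy0]
      have h1 := eval_smul g hg1 (0 : ℂ) 0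
      rw [smul_zero, zero_pow (by omega), zero_mul] at h1
      exact h1
    · obtain ⟨u, hu⟩ := Projectivization.exists_smul_eq_mk_rep ℂ y hy0
      have h1 : (Projectivization.mk ℂ y hy0).rep = (u : ℂ) • y := hu.symm
      have h2 := hg2 (Projectivization.mk ℂ y hy0) (by
        rw [h1]
        exact ys_smul a b G kk hX (toC σ) S y u hy)
      rw [h1, eval_smul g hg1] at h2
      exact (mul_eq_zero.1 h2).resolve_left (pow_ne_zero _ u.ne_zero)) ε' hε'0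
  choose H₀ hH₀ hmain using hcore
  set H₁ : ℕ := Finset.univ.sup H₀ with hH₁
  refine ⟨I.card * (C + 1 + H₁) ^ ε', fun B hB => ?_⟩
  set H : ℕ := ⌈C * B ^ (n + 1)⌉₊ + H₁ with hH
  have hB' : (1 : ℝ) ≤ B ^ (n + 1) := one_le_pow₀ hB
  have hHle : (H : ℝ) ≤ (C + 1 + H₁) * B ^ (n + 1) := by
    have h1 := (Nat.ceil_lt_add_one (by positivity : 0 ≤ C * B ^ (n + 1))).le
    have h2 : (0 : ℝ) ≤ H₁ := Nat.cast_nonneg _
    rw [hH]
    push_cast
    nlinarith
  have hHge : C * B ^ (n + 1) ≤ H := by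
    rw [hH]
    push_cast
    have h1 := Nat.le_ceil (C * B ^ (n + 1))
    have h2 : (0 : ℝ) ≤ H₁ := Nat.cast_nonneg _
    linarith
  have hex : ∀ m : I, _ := fun m => hmain m H
    ((Finset.le_sup (f := H₀) (Finset.mem_univ m)).trans (by omega))
  choose FF hFF1 hFF2 hFF3 using hex
  refine ⟨Finset.univ.biUnion FF, ?_, ?_, ?_⟩
  · have h1 : (((Finset.univ.biUnion FF).card : ℕ) : ℝ) ≤ ∑ m, ((FF m).card : ℝ) := by
      exact_mod_cast Finset.card_biUnion_le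
    refine h1.trans ((Finset.sum_le_sum fun m _ => hFF1 m).trans ?_)
    rw [Finset.sum_const, Finset.card_univ, Fintype.card_coe, nsmul_eq_mul, mul_assoc]
    exact mul_le_mul_of_nonneg_left (rpow_bound n C B ε hC0 hB hε H₁ H hHle) (Nat.cast_nonneg _)
  · intro f hf
    rw [Finset.mem_biUnion] at hf
    obtain ⟨m, _, hf⟩ := hf
    exact hFF2 m f hf
  · rintro y ⟨m, hm, hy⟩ hyB
    obtain ⟨c, u, hu, hcu, hcB⟩ := hC B y hyB
    obtain ⟨f, hf, hf0⟩ := hFF3 ⟨m, hm⟩ c (by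
      intro i
      have h1 : |(c i : ℝ)| ≤ H := (hcB i).trans hHge
      exact_mod_cast h1) (hypL_of_sv a b hdK G d hG m _ (by
        simp only [hcu]
        exact svPt_smul a b G kk hX y.rep u hy))
    refine ⟨f, Finset.mem_biUnion.2 ⟨_, Finset.mem_univ _, hf⟩, ?_⟩
    have h1 : (fun i => ((W659.SA.vec ω c i : 𝓞 K) : K)) = u • y.rep := by
      funext i
      rw [hcu i]
      rfl
    rw [h1, eval_smul f (hFF2 ⟨m, hm⟩ f hf).2] at hf0
    rcases mul_eq_zero.1 hf0 with h2 | h2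
    · exact absurd h2 (pow_ne_zero _ hu)
    · exact h2

theorem partBL (K : Type) [Field K] [NumberField K] (r n q : ℕ) (I : Finset ℕ) (a b : 𝓞 K)
    (hd : 4 * a ^ 3 + 27 * b ^ 2 ≠ 0) (G : Fin q → Pol (𝓞 K) r n)
    (d : Fin q → Fin r → ℕ) (kk : Fin q → ℕ) (hG : ∀ e, MHomog (G e) (d e))
    (hX : ∀ e, XHomog (G e) (kk e)) (D : ℕ) (σ : K →+* ℂ)
    (hns : ∀ m ∈ I, ∀ S : Fin r → Pt (toC σ a) (toC σ b),
      {y : ℙ ℂ (Fin n → ℂ) | y.rep ∈ YS a b G m (toC σ) S}.encard ≤ D)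
    (ε : ℝ) (hε : 0 < ε) :
    ∃ C : ℝ, ∀ B : ℝ, 1 ≤ B →
      {y : ℙ K (Fin n → K) | (∃ m ∈ I, SvPt a b G m y.rep) ∧ y.mulHeight ≤ B}.Finite ∧
      ({y : ℙ K (Fin n → K) | (∃ m ∈ I, SvPt a b G m y.rep) ∧ y.mulHeight ≤ B}.ncard : ℝ) ≤
        C * B ^ ε := by
  classical
  have hdK := disc_ne hd
  obtain ⟨N, ω, C, hC0, hC⟩ := reduce K n
  set ε' : ℝ := ε / ((n : ℝ) + 1) with hε'
  have hε'0 : 0 < ε' := by positivity
  have hcore : ∀ m : I, _ := fun m => coreFL K N ω r n q m.1 a b hdK G d hG D σ (by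
    intro S x hx0 hx
    by_contra hcon
    push Not at hcon
    have hinj : Function.Injective fun l => Projectivization.mk ℂ (x l) (hx0 l) := by
      intro l l' hll
      by_contra hne
      obtain ⟨u, hu⟩ := (Projectivization.mk_eq_mk_iff' ℂ _ _ _ _).1 hll
      exact hcon l l' hne u hu.symm
    have h1 : (Set.range fun l => Projectivization.mk ℂ (x l) (hx0 l)) ⊆
        {y : ℙ ℂ (Fin n → ℂ) | y.rep ∈ YS a b G m.1 (toC σ) S} := by
      rintro _ ⟨l, rfl⟩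
      obtain ⟨u, hu⟩ := Projectivization.exists_smul_eq_mk_rep ℂ (x l) (hx0 l)
      have h1 : (Projectivization.mk ℂ (x l) (hx0 l)).rep = (u : ℂ) • x l := hu.symm
      rw [Set.mem_setOf_eq, h1]
      exact ys_smul a b G kk hX (toC σ) S (x l) u (hx l)
    have h2 := (Set.encard_le_encard h1).trans (hns m.1 m.2 S)
    rw [← Set.image_univ, hinj.encard_image, Set.encard_univ, ENat.card_eq_coe_fintype_card,
      Fintype.card_fin] at h2
    have h3 : D + 1 ≤ D := by exact_mod_cast h2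
    omega) ε' hε'0
  choose H₀ hH₀ hmain using hcore
  set H₁ : ℕ := Finset.univ.sup H₀ with hH₁
  refine ⟨I.card * (D * (C + 1 + H₁) ^ ε'), fun B hB => ?_⟩
  set H : ℕ := ⌈C * B ^ (n + 1)⌉₊ + H₁ with hH
  have hB' : (1 : ℝ) ≤ B ^ (n + 1) := one_le_pow₀ hB
  have hHle : (H : ℝ) ≤ (C + 1 + H₁) * B ^ (n + 1) := by
    have h1 := (Nat.ceil_lt_add_one (by positivity : 0 ≤ C * B ^ (n + 1))).le
    have h2 : (0 : ℝ) ≤ H₁ := Nat.cast_nonneg _
    rw [hH]
    push_cast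
    nlinarith
  have hHge : C * B ^ (n + 1) ≤ H := by
    rw [hH]
    push_cast
    have h1 := Nat.le_ceil (C * B ^ (n + 1))
    have h2 : (0 : ℝ) ≤ H₁ := Nat.cast_nonneg _
    linarith
  have hex : ∀ m : I, _ := fun m => hmain m H
    ((Finset.le_sup (f := H₀) (Finset.mem_univ m)).trans (by omega))
  choose Z hZ1 hZ2 using hex
  have hsub : {y : ℙ K (Fin n → K) | (∃ m ∈ I, SvPt a b G m y.rep) ∧ y.mulHeight ≤ B} ⊆
      ((Finset.univ.biUnion Z : Finset (ℙ K (Fin n → K))) : Set (ℙ K (Fin n → K))) := by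
    rintro y ⟨⟨m, hm, hy⟩, hyB⟩
    obtain ⟨c, u, hu, hcu, hcB⟩ := hC B y hyB
    have h1 : (fun i => ((W659.SA.vec ω c i : 𝓞 K) : K)) = u • y.rep := by
      funext i
      rw [hcu i]
      rfl
    have h2 : (fun i => ((W659.SA.vec ω c i : 𝓞 K) : K)) ≠ 0 := by
      rw [h1]
      exact smul_ne_zero hu y.rep_nonzero
    have h3 := hZ2 ⟨m, hm⟩ c h2 (by
      intro i
      have h1 : |(c i : ℝ)| ≤ H := (hcB i).trans hHge
      exact_mod_cast h1) (hypL_of_sv a b hdK G d hG m _ (by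
        simp only [hcu]
        exact svPt_smul a b G kk hX y.rep u hy))
    have h4 : Projectivization.mk K _ h2 = y := by
      conv_rhs => rw [← y.mk_rep]
      rw [Projectivization.mk_eq_mk_iff']
      exact ⟨u, h1.symm⟩
    rw [h4] at h3
    exact Finset.mem_coe.2 (Finset.mem_biUnion.2 ⟨_, Finset.mem_univ _, h3⟩)
  refine ⟨(Finset.finite_toSet _).subset hsub, ?_⟩
  have h1 : ({y : ℙ K (Fin n → K) | (∃ m ∈ I, SvPt a b G m y.rep) ∧
      y.mulHeight ≤ B}.ncard : ℝ) ≤ (Finset.univ.biUnion Z).card := by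
    have := Set.ncard_le_ncard hsub (Finset.finite_toSet _)
    rw [Set.ncard_coe_finset] at this
    exact_mod_cast this
  refine h1.trans ?_
  have h1 : (((Finset.univ.biUnion Z).card : ℕ) : ℝ) ≤ ∑ m, ((Z m).card : ℝ) := by
    exact_mod_cast Finset.card_biUnion_le
  refine h1.trans ((Finset.sum_le_sum fun m _ => hZ1 m).trans ?_)
  rw [Finset.sum_const, Finset.card_univ, Fintype.card_coe, nsmul_eq_mul, mul_assoc, mul_assoc]
  exact mul_le_mul_of_nonneg_left (mul_le_mul_of_nonneg_left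
    (rpow_bound n C B ε hC0 hB hε H₁ H hHle) (Nat.cast_nonneg _)) (Nat.cast_nonneg _)

end Pool.Agent.Y213.CB
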