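import Pool.Agent.Y213.CB.PlcW
import Mathlib.RingTheory.Frobenius
import Mathlib.RingTheory.Invariant.Galois

/-! Frobenius elements; the sum of the conjugates of a point. -/

set_option autoImplicit false

namespace Pool.Agent.Y213.CB

open WeierstrassCurve Pool.Agent.H901R3.MS NumberField Pool.Agent.Y213.EC Pool.Agent.Y213.BD

theorem exists_frob (K M : Type) [Field K] [NumberField K] [Field M] [NumberField M] [Algebra K M]
    [IsGalois K M] (p : ℕ) [Fact p.Prime] (φ : 𝓞 K →+* ZMod p) (k : Type) [Field k] [CharP k p]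
    (c : ZMod p →+* k) (ψ : 𝓞 M →+* k)
    (hψ : ∀ x : 𝓞 K, ψ (algebraMap (𝓞 K) (𝓞 M) x) = c (φ x)) :
    ∃ g : M ≃ₐ[K] M, ∀ x y : 𝓞 M, (y : M) = g (x : M) → ψ y = ψ x ^ p := by
  haveI : FiniteDimensional K M := Module.Finite.of_restrictScalars_finite ℚ K M
  set Q : Ideal (𝓞 M) := RingHom.ker ψ with hQ
  haveI hQp : Q.IsPrime := RingHom.ker_isPrime ψ
  have hQne : Q ≠ ⊥ := by
    intro h0
    have h1 : ((p : ℕ) : 𝓞 M) ∈ Q := by
      rw [hQ, RingHom.mem_ker, map_natCast, CharP.cast_eq_zero]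
    rw [h0, Ideal.mem_bot, Nat.cast_eq_zero] at h1
    exact (Fact.out : p.Prime).ne_zero h1
  haveI : Finite (𝓞 M ⧸ Q) := Ideal.finiteQuotientOfFreeOfNeBot Q hQne
  haveI : Algebra.IsInvariant (𝓞 K) (𝓞 M) (𝓞 M ≃ₐ[𝓞 K] 𝓞 M) :=
    Algebra.isInvariant_of_isGalois' (𝓞 K) K M (𝓞 M)
  haveI : Finite (𝓞 M ≃ₐ[𝓞 K] 𝓞 M) :=
    Finite.of_equiv _ (galRestrict (𝓞 K) K M (𝓞 M)).toEquiv
  obtain ⟨σ, hσ⟩ := IsArithFrobAt.exists_of_isInvariant (𝓞 K) (𝓞 M ≃ₐ[𝓞 K] 𝓞 M) Q
  have hcard : Nat.card (𝓞 K ⧸ Q.under (𝓞 K)) = p := by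
    have h1 : Q.under (𝓞 K) = RingHom.ker φ := by
      ext x
      rw [Ideal.mem_comap, hQ, RingHom.mem_ker, hψ, RingHom.mem_ker, map_eq_zero]
    rw [h1, Nat.card_congr (RingHom.quotientKerEquivOfSurjective
      (ZMod.ringHom_surjective φ)).toEquiv, Nat.card_zmod]
  refine ⟨(galRestrict (𝓞 K) K M (𝓞 M)).symm σ, fun x y hxy => ?_⟩
  have h1 : (y : M) = ((σ x : 𝓞 M) : M) := by
    rw [hxy]
    have h2 := algebraMap_galRestrict_apply (𝓞 K) ((galRestrict (𝓞 K) K M (𝓞 M)).symm σ) x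
    rw [MulEquiv.apply_symm_apply] at h2
    exact h2.symm
  have h3 : y = σ x := RingOfIntegers.ext h1
  have h4 := hσ x
  rw [hcard] at h4
  have h5 : σ x - x ^ p ∈ Q := h4
  rw [hQ, RingHom.mem_ker, map_sub, map_pow, sub_eq_zero] at h5
  rw [h3]
  exact h5

open scoped Classical in
/-- The sum of the conjugates of a point is rational, with the Galois group. -/
theorem descendG (K : Type) [Field K] [NumberField K] (F : Type) [Field F] [Algebra K F] (m : ℕ)
    (hF : Module.finrank K F = m + 1) (a b : K) (hd : Disc a b) (r : ℕ)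
    (V : Fin r → Fin 3 → F)
    (hV : ∀ i, OnK (algebraMap K F a) (algebraMap K F b) (V i)) :
    ∃ (M : Type) (_ : Field M) (_ : NumberField M) (_ : Algebra K M) (_ : IsGalois K M)
      (e : Fin (m + 1) ≃ (F →ₐ[K] M))
      (P : Fin (m + 1) → Fin r → Pt (algebraMap K M a) (algebraMap K M b)) (s : Fin r → Pt a b),
      (∀ j i, ∃ c : M, c ≠ 0 ∧ ∀ t, rep (P j i) t = c * e j (V i t)) ∧
      ∀ J : Pt a b →+ Pt (algebraMap K M a) (algebraMap K M b),
        (∀ (x y : K) (h : (CV a b).toAffine.Nonsingular x y),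
          ∃ g : (CV (algebraMap K M a) (algebraMap K M b)).toAffine.Nonsingular
            (algebraMap K M x) (algebraMap K M y),
          J (Affine.Point.some x y h) = Affine.Point.some _ _ g) → ∀ i, ∑ j, P j i = J (s i) := by
  obtain ⟨M, hM1, hM2, hM3, hM4, ⟨e⟩⟩ := embeds K F m hF
  haveI : FiniteDimensional K M := Module.Finite.of_restrictScalars_finite ℚ K M
  haveI : Fintype (F →ₐ[K] M) := Fintype.ofEquiv _ e
  have hdM : Disc (algebraMap K M a) (algebraMap K M b) := by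
    unfold Disc at hd ⊢
    have h := (map_ne_zero (algebraMap K M)).2 hd
    rw [map_mul, map_add, map_mul, map_mul, map_pow, map_pow, map_ofNat, map_ofNat,
      map_ofNat] at h
    exact h
  have hdF : Disc (algebraMap K F a) (algebraMap K F b) := by
    unfold Disc at hd ⊢
    have h := (map_ne_zero (algebraMap K F)).2 hd
    rw [map_mul, map_add, map_mul, map_mul, map_pow, map_pow, map_ofNat, map_ofNat,
      map_ofNat] at h
    exact h
  have hQ : ∀ i, ∃ (Q : Pt (algebraMap K F a) (algebraMap K F b)) (c : F), c ≠ 0 ∧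
      ∀ t, V i t = c * rep Q t := fun i => t_PTSK F _ _ (V i) hdF (hV i)
  choose Q c hc0 hc using hQ
  have hJ : ∀ τ : F →ₐ[K] M, ∃ J : Pt (algebraMap K F a) (algebraMap K F b) →+
      Pt (algebraMap K M a) (algebraMap K M b), ∀ (x y : F)
      (h : (CV (algebraMap K F a) (algebraMap K F b)).toAffine.Nonsingular x y),
      ∃ g : (CV (algebraMap K M a) (algebraMap K M b)).toAffine.Nonsingular (τ x) (τ y),
        J (Affine.Point.some x y h) = Affine.Point.some _ _ g := fun τ =>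
    exists_map (τ : F →+* M) (τ.commutes a) (τ.commutes b) hdM
  choose J hJ using hJ
  have hG : ∀ g : M ≃ₐ[K] M, ∃ J : Pt (algebraMap K M a) (algebraMap K M b) →+
      Pt (algebraMap K M a) (algebraMap K M b), ∀ (x y : M)
      (h : (CV (algebraMap K M a) (algebraMap K M b)).toAffine.Nonsingular x y),
      ∃ k : (CV (algebraMap K M a) (algebraMap K M b)).toAffine.Nonsingular (g x) (g y),
        J (Affine.Point.some x y h) = Affine.Point.some _ _ k := fun g =>
    exists_map ((g : M →ₐ[K] M) : M →+* M) (g.commutes a) (g.commutes b) hdM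
  choose jg hjg using hG
  have hcomp : ∀ (g : M ≃ₐ[K] M) (τ : F →ₐ[K] M) (Q : Pt (algebraMap K F a) (algebraMap K F b)),
      jg g (J τ Q) = J ((g : M →ₐ[K] M).comp τ) Q := by
    intro g τ Q
    rcases Q with _ | ⟨x, y, h⟩
    · have h0 : (Affine.Point.zero : Pt (algebraMap K F a) (algebraMap K F b)) = 0 := rfl
      rw [h0, map_zero, map_zero, map_zero]
    · obtain ⟨g1, h1⟩ := hJ τ x y h
      obtain ⟨g2, h2⟩ := hjg g _ _ g1
      obtain ⟨g3, h3⟩ := hJ ((g : M →ₐ[K] M).comp τ) x y h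
      rw [h1, h2, h3]
      rfl
  have hinv : ∀ (g : M ≃ₐ[K] M) i, jg g (∑ j, J (e j) (Q i)) = ∑ j, J (e j) (Q i) := by
    intro g i
    rw [map_sum, Equiv.sum_comp e (fun τ => jg g (J τ (Q i))),
      Equiv.sum_comp e (fun τ => J τ (Q i))]
    simp only [hcomp]
    let E : (F →ₐ[K] M) ≃ (F →ₐ[K] M) :=
      { toFun := fun τ => (g : M →ₐ[K] M).comp τ
        invFun := fun τ => (g.symm : M →ₐ[K] M).comp τ
        left_inv := fun τ => by
          ext x
          simp
        right_inv := fun τ => by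
          ext x
          simp }
    exact Equiv.sum_comp E (fun τ => J τ (Q i))
  have hs : ∀ i, ∃ s : Pt a b, ∀ J' : Pt a b →+ Pt (algebraMap K M a) (algebraMap K M b),
      (∀ (x y : K) (h : (CV a b).toAffine.Nonsingular x y),
        ∃ g : (CV (algebraMap K M a) (algebraMap K M b)).toAffine.Nonsingular
          (algebraMap K M x) (algebraMap K M y),
        J' (Affine.Point.some x y h) = Affine.Point.some _ _ g) →
      J' s = ∑ j, J (e j) (Q i) := by
    intro i
    refine fixed_pt K M a b hd _ ?_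
    intro g x y h hS
    have h1 := hinv g i
    rw [hS] at h1
    obtain ⟨k, hk⟩ := hjg g x y h
    rw [hk, Affine.Point.some.injEq] at h1
    exact h1
  choose s hs using hs
  refine ⟨M, hM1, hM2, hM3, hM4, e, fun j i => J (e j) (Q i), s,
    ?_, fun J' hJ' i => (hs i J' hJ').symm⟩
  intro j i
  refine ⟨(e j (c i))⁻¹, inv_ne_zero ((map_ne_zero _).2 (hc0 i)), fun t => ?_⟩
  have h1 : rep (J (e j) (Q i)) t = e j (rep (Q i) t) := by
    rcases Q i with _ | ⟨x, y, h⟩
    · have h0 : (Affine.Point.zero : Pt (algebraMap K F a) (algebraMap K F b)) = 0 := rfl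
      rw [h0, map_zero]
      fin_cases t <;> simp [rep, ← Affine.Point.zero_def]
    · obtain ⟨g1, h1⟩ := hJ (e j) x y h
      rw [h1]
      fin_cases t <;> simp [rep]
  rw [h1, hc i t]
  have h2 : ((e j : F →ₐ[K] M) (c i * rep (Q i) t)) = e j (c i) * e j (rep (Q i) t) :=
    map_mul _ _ _
  rw [h2, ← mul_assoc, inv_mul_cancel₀ ((map_ne_zero _).2 (hc0 i)), one_mul]

end Pool.Agent.Y213.CB
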