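import Pool.Agent.Y213.CB.RedG

/-! Reductions of members with adelic points of bounded degree near global points. -/

set_option autoImplicit false

namespace Pool.Agent.Y213.CB

open MvPolynomial NumberField Pool.Agent.H901R3.MS WeierstrassCurve IsDedekindDomain
open Pool.Agent.Y213.EC Pool.Agent.TH954 Pool.Agent.TH942 Pool.Agent.Y213.BD

open scoped Classical in
/-- the reductions of the point `Q` over `F` at the places above the place `φ` of `K` lie on the
reduction of the member `y` -/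
def NearAt {K : Type} [Field K] [NumberField K] {r n q : ℕ} (a b : 𝓞 K)
    (G : Fin q → Pol (𝓞 K) r n) (F : Type) [Field F] [NumberField F] [Algebra K F]
    (Q : Fin r → Pt (algebraMap K F a) (algebraMap K F b)) (p : ℕ) [Fact p.Prime]
    (φ : 𝓞 K →+* ZMod p) (y : Fin n → 𝓞 K) : Prop :=
  ∀ (k : Type) [Field k] [IsAlgClosed k] (c : ZMod p →+* k),
    Disc (c.comp φ a) (c.comp φ b) → ∀ (ψ : 𝓞 F →+* k),
    (∀ x : 𝓞 K, ψ (algebraMap (𝓞 K) (𝓞 F) x) = c (φ x)) →
    ∀ (w : Place F k), (∀ x : 𝓞 F, (x : F) ∈ w.A ∧ w.r (x : F) = ψ x) →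
    ∀ red : Pt (algebraMap K F a) (algebraMap K F b) →+ Pt (c.comp φ a) (c.comp φ b),
    IsRd w red → ∀ e, vl (c.comp φ) (G e) (fun i => rep (red (Q i))) (fun i => c (φ (y i))) = 0

open scoped Classical in
/-- the reduction of the member `y` at `φ` has points whose sum is the reduction of `s` -/
def RdnAt {K : Type} [Field K] [NumberField K] {r n q : ℕ} (a b : 𝓞 K)
    (G : Fin q → Pol (𝓞 K) r n) (m : ℕ) (p : ℕ) [Fact p.Prime] (φ : 𝓞 K →+* ZMod p)
    (y : Fin n → 𝓞 K) (s : Fin r → Pt (a : K) (b : K)) : Prop :=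
  ∀ (w : Place K (ZMod p)), (∀ x : 𝓞 K, (x : K) ∈ w.A ∧ w.r (x : K) = φ x) →
    ∀ redK : Pt (a : K) (b : K) →+ Pt (φ a) (φ b), IsRd w redK →
    ∀ (k : Type) [Field k] [IsAlgClosed k] (c : ZMod p →+* k),
    Disc (c.comp φ a) (c.comp φ b) →
    ∀ jc : Pt (φ a) (φ b) →+ Pt (c.comp φ a) (c.comp φ b),
    (∀ (x y : ZMod p) (h : (CV (φ a) (φ b)).toAffine.Nonsingular x y),
      ∃ g : (CV (c.comp φ a) (c.comp φ b)).toAffine.Nonsingular (c x) (c y),
        jc (Affine.Point.some x y h) = Affine.Point.some _ _ g) →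
    (fun i => c (φ (y i))) ∈ YS a b G m (c.comp φ) (fun i => jc (redK (s i)))

/-- the integers of `F` in a larger field -/
noncomputable def resI {F M : Type} [Field F] [Field M] (τ : F →+* M) : 𝓞 F →+* 𝓞 M :=
  RingOfIntegers.mapRingHom τ

theorem resI_coe {F M : Type} [Field F] [Field M] (τ : F →+* M) (x : 𝓞 F) :
    ((resI τ x : 𝓞 M) : M) = τ (x : F) := rfl

open scoped Classical in
theorem memberC (K : Type) [Field K] [NumberField K] {r n q m : ℕ} (a b : 𝓞 K)
    (hd : Disc (a : K) (b : K)) (G : Fin q → Pol (𝓞 K) r n)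
    (F : Type) [Field F] [NumberField F] [Algebra K F] (hdeg : Module.finrank K F = m + 1)
    (Q : Fin r → Pt (algebraMap K F a) (algebraMap K F b)) :
    ∃ s : Fin r → Pt (a : K) (b : K), ∀ (p : ℕ) [Fact p.Prime] (φ : 𝓞 K →+* ZMod p)
      (y : Fin n → 𝓞 K), NearAt a b G F Q p φ y → RdnAt a b G m p φ y s := by
  obtain ⟨M, hM1, hM2, ι, τ, P, s, hτ, hP, hsum⟩ := descend K F m hdeg (a : K) (b : K) hd r
    (fun i => rep (Q i)) (fun i => onK_rep _)
  refine ⟨s, ?_⟩
  intro p _ φ y hnear w hw redK hred k _ _ c hdc jc hjc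
  have hp : p ≠ 0 := (Fact.out : p.Prime).ne_zero
  haveI : CharP k p := charP_of_injective_ringHom c.injective p
  letI : Algebra K M := ι.toAlgebra
  have hinj : Function.Injective (algebraMap (𝓞 K) (𝓞 M)) :=
    FaithfulSMul.algebraMap_injective (𝓞 K) (𝓞 M)
  obtain ⟨ψ, hψ⟩ := exists_ext (𝓞 K) (𝓞 M) k hinj (c.comp φ)
  obtain ⟨v, hv⟩ := exists_place M k p hp ψ
  have hvK : ∀ x : 𝓞 K, ι (x : K) ∈ v.A ∧ v.r (ι (x : K)) = c (φ x) := by
    intro x
    have h1 := hv (algebraMap (𝓞 K) (𝓞 M) x)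
    rw [hψ x] at h1
    exact h1
  obtain ⟨redv, hredv⟩ := exists_red v (a := ι (a : K)) (b := ι (b : K)) (a' := c.comp φ a)
    (b' := c.comp φ b) (hvK a).1 (hvK b).1 (hvK a).2 (hvK b).2 hdc
  have hdM : Disc (ι (a : K)) (ι (b : K)) := by
    unfold Disc at hd ⊢
    have h := (map_ne_zero ι).2 hd
    rw [map_mul, map_add, map_mul, map_mul, map_pow, map_pow, map_ofNat, map_ofNat,
      map_ofNat] at h
    exact h
  obtain ⟨J, hJ⟩ := exists_map ι (a := (a : K)) (b := (b : K)) rfl rfl hdM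
  refine ⟨fun j i => redv (P j i), ?_, ?_⟩
  · intro j e
    -- the place of `F`
    set ψj : 𝓞 F →+* k := ψ.comp (resI (τ j)) with hψj
    have hψj' : ∀ x : 𝓞 K, ψj (algebraMap (𝓞 K) (𝓞 F) x) = c (φ x) := by
      intro x
      have h1 : resI (τ j) (algebraMap (𝓞 K) (𝓞 F) x) = algebraMap (𝓞 K) (𝓞 M) x := by
        apply RingOfIntegers.ext
        rw [resI_coe]
        exact congrArg (fun f : K →+* M => f (x : K)) (hτ j)
      rw [hψj, RingHom.comp_apply, h1, hψ x]
      rfl
    obtain ⟨w₀, hw₀⟩ := exists_place F k p hp ψj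
    have hvF : ∀ x : 𝓞 F, τ j (x : F) ∈ v.A ∧ v.r (τ j (x : F)) = RingHom.id k (ψj x) := by
      intro x
      exact hv (resI (τ j) x)
    have hwK : ∀ x : 𝓞 K, algebraMap K F (x : K) ∈ w₀.A ∧
        w₀.r (algebraMap K F (x : K)) = c (φ x) := by
      intro x
      have h1 := hw₀ (algebraMap (𝓞 K) (𝓞 F) x)
      rw [hψj' x] at h1
      exact h1
    obtain ⟨red₀, hred₀⟩ := exists_red w₀ (a := algebraMap K F (a : K))
      (b := algebraMap K F (b : K)) (a' := c.comp φ a)
      (b' := c.comp φ b) (hwK a).1 (hwK b).1 (hwK a).2 (hwK b).2 hdc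
    have hN := hnear k c hdc ψj hψj' w₀ hw₀ red₀ hred₀ e
    have hea : τ j (algebraMap K F (a : K)) = ι (a : K) :=
      congrArg (fun f : K →+* M => f (a : K)) (hτ j)
    have heb : τ j (algebraMap K F (b : K)) = ι (b : K) :=
      congrArg (fun f : K →+* M => f (b : K)) (hτ j)
    have hgen : ∀ i, redv (P j i) = red₀ (Q i) := by
      intro i
      have hcmp : ∀ (a₁ b₁ : M) (e1 : τ j (algebraMap K F (a : K)) = a₁)
          (e2 : τ j (algebraMap K F (b : K)) = b₁) (hd1 : Disc a₁ b₁)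
          (redv' : Pt a₁ b₁ → Pt (c.comp φ a) (c.comp φ b)) (_ : IsRd v redv')
          (P' : Pt a₁ b₁) (c' : M) (_ : ∀ t, rep P' t = c' * τ j (rep (Q i) t)),
          redv' P' = red₀ (Q i) := by
        intro a₁ b₁ e1 e2 hd1 redv' hr' P' c' hc'
        subst e1
        subst e2
        obtain ⟨Jj, hJj⟩ := exists_map (τ j) (a := algebraMap K F (a : K))
          (b := algebraMap K F (b : K)) rfl rfl hd1
        have h1 : P' = Jj (Q i) := by
          apply rep_prop P' (Jj (Q i)) c'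
          intro t
          rw [hc' t]
          congr 1
          rcases Q i with _ | ⟨x, y, h⟩
          · have h0 : (Affine.Point.zero : Pt (algebraMap K F (a : K)) (algebraMap K F b)) = 0 :=
              rfl
            rw [h0, map_zero]
            fin_cases t <;> simp [rep, ← Affine.Point.zero_def]
          · obtain ⟨g1, h1⟩ := hJj x y h
            rw [h1]
            fin_cases t <;> simp [rep]
        rw [h1]
        have h2 := red_cmp F k p hp ψj w₀ hw₀ M k (τ j) (RingHom.id k) v hvF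
          (a' := c.comp φ a) (b' := c.comp φ b) hred₀ hr' (map_zero Jj) hJj
          (jc := id) rfl (fun x y h => ⟨h, rfl⟩) (Q i)
        exact h2
      obtain ⟨c', hc', hc⟩ := hP j i
      exact hcmp _ _ hea heb hdM redv hredv (P j i) c' hc
    simp only [hgen]
    exact hN
  · intro i
    have h1 : ∑ j, redv (P j i) = redv (∑ j, P j i) := (map_sum redv _ _).symm
    beta_reduce
    rw [h1, hsum J hJ i]
    exact red_cmp K (ZMod p) p hp φ w hw M k ι c v hvK hred hredv (map_zero J) hJ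
      (map_zero jc) hjc (s i)

end Pool.Agent.Y213.CB
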