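import Pool.Agent.Y213.CB.Frob
import Pool.Agent.Y213.CB.Fin

/-! The sieve over an extension field: traces of local points. -/

set_option autoImplicit false

namespace Pool.Agent.Y213.CB

open MvPolynomial NumberField Pool.Agent.H901R3.MS WeierstrassCurve IsDedekindDomain
open Pool.Agent.Y213.EC Pool.Agent.TH954 Pool.Agent.TH942 Pool.Agent.Y213.BD
open Pool.Agent.Y213.T6 (loc_valG bc_eq)

/-- the reduction of the points over the completion at `w`, with the residue map `ψ` -/
def LocRed {F : Type} [Field F] [NumberField F] (w : HeightOneSpectrum (𝓞 F)) {k : Type} [Field k]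
    (ψ : 𝓞 F →+* k) (W : WeierstrassCurve (w.adicCompletion F)) {a' b' : k}
    (red : W.toAffine.Point → Pt a' b') : Prop :=
  ∃ pl : Place (w.adicCompletion F) k, (∀ x : 𝓞 F, algebraMap F (w.adicCompletion F) (x : F) ∈ pl.A ∧
      pl.r (algebraMap F (w.adicCompletion F) (x : F)) = ψ x) ∧ (∀ x, ‖x‖ ≤ 1 ↔ x ∈ pl.A) ∧
    red Affine.Point.zero = Affine.Point.zero ∧
    (∀ (x y : w.adicCompletion F) (h : W.toAffine.Nonsingular x y), x ∉ pl.A →
      red (Affine.Point.some x y h) = Affine.Point.zero) ∧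
    (∀ (x y : w.adicCompletion F) (h : W.toAffine.Nonsingular x y), x ∈ pl.A → y ∈ pl.A ∧
      ∃ g : (CV a' b').toAffine.Nonsingular (pl.r x) (pl.r y),
        red (Affine.Point.some x y h) = Affine.Point.some _ _ g) ∧
    ∀ P : W.toAffine.Point, ∃ u : w.adicCompletion F, u ≠ 0 ∧ ∀ j, u * crd P j ∈ pl.A ∧
      pl.r (u * crd P j) = rep (red P) j

theorem exists_redW' {L k : Type} [Field L] [Field k] [DecidableEq L] [DecidableEq k]
    (w : Place L k) {a b : L} {a' b' : k} (ha : a ∈ w.A) (hb : b ∈ w.A) (ha' : w.r a = a')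
    (hb' : w.r b = b') (hd : Disc a' b') (W : WeierstrassCurve L) (hW : W = CV a b) :
    ∃ red : W.toAffine.Point →+ Pt a' b',
      (∀ (x y : L) (h : W.toAffine.Nonsingular x y), x ∉ w.A →
        red (Affine.Point.some x y h) = Affine.Point.zero) ∧
      (∀ (x y : L) (h : W.toAffine.Nonsingular x y), x ∈ w.A → y ∈ w.A ∧
        ∃ g : (CV a' b').toAffine.Nonsingular (w.r x) (w.r y),
          red (Affine.Point.some x y h) = Affine.Point.some _ _ g) ∧
      ∀ P : W.toAffine.Point, ∃ u : L, u ≠ 0 ∧ ∀ j, u * crd P j ∈ w.A ∧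
        w.r (u * crd P j) = rep (red P) j := by
  subst hW
  obtain ⟨red, hred⟩ := exists_red w ha hb ha' hb' hd
  refine ⟨red, hred.2.1, fun x y h hx => hred.2.2 x y h hx, fun P => ?_⟩
  obtain ⟨u, hu, h⟩ := rep_red w ha hb ha' hb' hred P
  refine ⟨u, hu, fun j => ?_⟩
  have h1 : crd P j = rep P j := by
    rcases P with _ | ⟨x, y, h⟩ <;> rfl
  rw [h1]
  exact h j

open scoped Classical in
theorem exists_locRed {K : Type} [Field K] [NumberField K] (a b : 𝓞 K)
    {F : Type} [Field F] [NumberField F] [Algebra K F] (w : HeightOneSpectrum (𝓞 F))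
    {k : Type} [Field k] {R : Type} [CommRing R] (c : R →+* k) (φ : 𝓞 K →+* R)
    (hdc : Disc (c.comp φ a) (c.comp φ b)) (ψ : 𝓞 F →+* k)
    (hψ : ∀ x : 𝓞 K, ψ (algebraMap (𝓞 K) (𝓞 F) x) = c (φ x))
    (hker : ∀ x, x ∈ w.asIdeal ↔ ψ x = 0) :
    ∃ red : ((sw (algebraMap K F a) (algebraMap K F b)).baseChange
      (w.adicCompletion F)).toAffine.Point →+ Pt (c.comp φ a) (c.comp φ b),
      LocRed w ψ _ red := by
  obtain ⟨pl, hpl, hA⟩ := exists_place_w w ψ hker
  have hwK : ∀ x : 𝓞 K, algebraMap F (w.adicCompletion F)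
      (algebraMap K F (x : K)) ∈ pl.A ∧ pl.r (algebraMap F (w.adicCompletion F)
        (algebraMap K F (x : K))) = c.comp φ x := by
    intro x
    have h1 := hpl (algebraMap (𝓞 K) (𝓞 F) x)
    rw [hψ x] at h1
    exact h1
  obtain ⟨red, hred1, hred2, hred3⟩ := exists_redW' pl
    (a := algebraMap F (w.adicCompletion F) (algebraMap K F (a : K)))
    (b := algebraMap F (w.adicCompletion F) (algebraMap K F (b : K)))
    (a' := c.comp φ a) (b' := c.comp φ b) (hwK a).1 (hwK b).1 (hwK a).2 (hwK b).2 hdc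
    ((sw (algebraMap K F a) (algebraMap K F b)).baseChange (w.adicCompletion F)) (bc_eq _ _ _)
  exact ⟨red, pl, hpl, hA, map_zero red, hred1, hred2, hred3⟩

theorem locRed_frob {F : Type} [Field F] [NumberField F] {a b : F} {k : Type} [Field k] (p : ℕ)
    [Fact p.Prime] [CharP k p] {a' b' : k}
    (J : Pt a' b' → Pt a' b') (hJ0 : J Affine.Point.zero = Affine.Point.zero)
    (hJ : ∀ (x y : k) (h : (CV a' b').toAffine.Nonsingular x y),
      ∃ g : (CV a' b').toAffine.Nonsingular (x ^ p) (y ^ p),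
        J (Affine.Point.some x y h) = Affine.Point.some _ _ g)
    (z : ∀ w : HeightOneSpectrum (𝓞 F),
      ((sw a b).baseChange (w.adicCompletion F)).toAffine.Point)
    (w₁ w₂ : HeightOneSpectrum (𝓞 F)) (h : w₁ = w₂) (ψ₁ ψ₂ : 𝓞 F →+* k)
    (hψ : ∀ x, ψ₂ x = ψ₁ x ^ p)
    (red₁ : ((sw a b).baseChange (w₁.adicCompletion F)).toAffine.Point → Pt a' b')
    (red₂ : ((sw a b).baseChange (w₂.adicCompletion F)).toAffine.Point → Pt a' b')
    (h₁ : LocRed w₁ ψ₁ _ red₁) (h₂ : LocRed w₂ ψ₂ _ red₂) : red₂ (z w₂) = J (red₁ (z w₁)) := by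
  subst h
  obtain ⟨p₁, q₁, A₁, z₁, n₁, s₁, -⟩ := h₁
  obtain ⟨p₂, q₂, A₂, z₂, n₂, s₂, -⟩ := h₂
  exact red_frob w₁ p ψ₁ ψ₂ hψ p₁ p₂ (fun x => (q₁ x).2) (fun x => (q₂ x).2) A₁ A₂ _ red₁ red₂
    z₁ z₂ n₁ n₂ s₁ s₂ J hJ0 hJ (z w₁)

open scoped Classical in
theorem memberS (K : Type) [Field K] [NumberField K] {r n q m : ℕ} (a b : 𝓞 K)
    (hd : Disc (a : K) (b : K)) (G : Fin q → Pol (𝓞 K) r n)
    (d : Fin q → Fin r → ℕ) (hG : ∀ e, MHomog (G e) (d e))
    (F : Type) [Field F] [NumberField F] [Algebra K F] (hdeg : Module.finrank K F = m + 1)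
    (Q : Fin r → SPt (algebraMap K F a) (algebraMap K F b)) :
    ∃ s : Fin r → Pt (a : K) (b : K), ∀ (p : ℕ) [Fact p.Prime] (φ : 𝓞 K →+* ZMod p)
      (y : Fin n → 𝓞 K) (L : ℕ), (∀ P : Pt (φ a) (φ b), L • P = 0) →
      ∀ x : ∀ w : HeightOneSpectrum (𝓞 F), Fin r →
        ((sw (algebraMap K F a) (algebraMap K F b)).baseChange (w.adicCompletion F)).toAffine.Point,
      (∀ w : HeightOneSpectrum (𝓞 F), ((p : ℕ) : 𝓞 F) ∈ w.asIdeal →
        OnX (mbrF G F (fun i => (y i : K))) (fun i => crd (x w i))) →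
      (∀ w : HeightOneSpectrum (𝓞 F), ((p : ℕ) : 𝓞 F) ∈ w.asIdeal → ∀ i,
        ∃ (z u : ((sw (algebraMap K F a) (algebraMap K F b)).baseChange
          (w.adicCompletion F)).toAffine.Point) (R : ℝ), 1 < R ∧ Big R u ∧
          x w i = locHom (L := w.adicCompletion F) (sw (algebraMap K F a) (algebraMap K F b))
            (Q i) + L • z + u) →
      RdnAt a b G m p φ y s := by
  obtain ⟨M, hM1, hM2, hM3, hM4, e, P, s, hP, hsum⟩ := descendG K F m hdeg (a : K) (b : K) hd r
    (fun i => rep (Q i)) (fun i => onK_rep _)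
  refine ⟨s, ?_⟩
  intro p _ φ y L hkill x hx hz w hw redK hred k _ _ c hdc jc hjc
  have hp : p ≠ 0 := (Fact.out : p.Prime).ne_zero
  haveI : CharP k p := charP_of_injective_ringHom c.injective p
  have hinj : Function.Injective (algebraMap (𝓞 K) (𝓞 M)) :=
    FaithfulSMul.algebraMap_injective (𝓞 K) (𝓞 M)
  obtain ⟨ψ, hψ⟩ := exists_ext (𝓞 K) (𝓞 M) k hinj (c.comp φ)
  obtain ⟨v, hv⟩ := exists_place M k p hp ψ
  have hvK : ∀ x : 𝓞 K, algebraMap K M (x : K) ∈ v.A ∧ v.r (algebraMap K M (x : K)) =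
      c (φ x) := by
    intro x
    have h1 := hv (algebraMap (𝓞 K) (𝓞 M) x)
    rw [hψ x] at h1
    exact h1
  obtain ⟨redv, hredv⟩ := exists_red v (a := algebraMap K M (a : K)) (b := algebraMap K M (b : K))
    (a' := c.comp φ a) (b' := c.comp φ b) (hvK a).1 (hvK b).1 (hvK a).2 (hvK b).2 hdc
  have hdM : Disc (algebraMap K M (a : K)) (algebraMap K M (b : K)) := by
    unfold Disc at hd ⊢
    have h := (map_ne_zero (algebraMap K M)).2 hd
    rw [map_mul, map_add, map_mul, map_mul, map_pow, map_pow, map_ofNat, map_ofNat,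
      map_ofNat] at h
    exact h
  obtain ⟨J, hJ⟩ := exists_map (algebraMap K M) (a := (a : K)) (b := (b : K)) rfl rfl hdM
  -- the residue maps of `F`
  set ψj : Fin (m + 1) → 𝓞 F →+* k := fun j => ψ.comp (resI (e j : F →+* M)) with hψj
  have hψj' : ∀ j, ∀ x : 𝓞 K, ψj j (algebraMap (𝓞 K) (𝓞 F) x) = c (φ x) := by
    intro j x
    have h1 : resI (e j : F →+* M) (algebraMap (𝓞 K) (𝓞 F) x) = algebraMap (𝓞 K) (𝓞 M) x := by
      apply RingOfIntegers.ext
      rw [resI_coe]
      exact (e j).commutes (x : K)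
    simp only [hψj]
    rw [RingHom.comp_apply, h1, hψ x]
    rfl
  set wj : Fin (m + 1) → HeightOneSpectrum (𝓞 F) := fun j => hspG p hp (ψj j) with hwj
  have hpw : ∀ j, ((p : ℕ) : 𝓞 F) ∈ (wj j).asIdeal := by
    intro j
    simp only [hwj]
    rw [mem_hspG, map_natCast, CharP.cast_eq_zero]
  have hred' : ∀ j, ∃ red : ((sw (algebraMap K F a) (algebraMap K F b)).baseChange
      ((wj j).adicCompletion F)).toAffine.Point →+ Pt (c.comp φ a) (c.comp φ b),
      LocRed (wj j) (ψj j) _ red := fun j =>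
    exists_locRed a b (wj j) c φ hdc (ψj j) (hψj' j) (fun x => mem_hspG p hp (ψj j) x)
  choose red hlr using hred'
  -- the local data
  have hz' : ∀ (w : HeightOneSpectrum (𝓞 F)) (i : Fin r),
      ∃ z : ((sw (algebraMap K F a) (algebraMap K F b)).baseChange
          (w.adicCompletion F)).toAffine.Point, ((p : ℕ) : 𝓞 F) ∈ w.asIdeal →
        ∃ (u : ((sw (algebraMap K F a) (algebraMap K F b)).baseChange
          (w.adicCompletion F)).toAffine.Point) (R : ℝ), 1 < R ∧ Big R u ∧
          x w i = locHom (L := w.adicCompletion F) (sw (algebraMap K F a) (algebraMap K F b))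
            (Q i) + L • z + u := by
    intro w i
    by_cases h : ((p : ℕ) : 𝓞 F) ∈ w.asIdeal
    · obtain ⟨z, u, R, h1⟩ := hz w h i
      exact ⟨z, fun _ => ⟨u, R, h1⟩⟩
    · exact ⟨0, fun h' => absurd h' h⟩
  choose z hzz using hz'
  -- reductions of the global points
  have hglob : ∀ j i, red j (locHom (L := (wj j).adicCompletion F)
      (sw (algebraMap K F a) (algebraMap K F b)) (Q i)) = redv (P j i) := by
    intro j i
    obtain ⟨w₀, hw₀⟩ := exists_place F k p hp (ψj j)
    have hvF : ∀ x : 𝓞 F, (e j : F →+* M) (x : F) ∈ v.A ∧ v.r ((e j : F →+* M) (x : F)) =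
        RingHom.id k (ψj j x) := by
      intro x
      exact hv (resI (e j : F →+* M) x)
    have hwK : ∀ x : 𝓞 K, algebraMap K F (x : K) ∈ w₀.A ∧
        w₀.r (algebraMap K F (x : K)) = c (φ x) := by
      intro x
      have h1 := hw₀ (algebraMap (𝓞 K) (𝓞 F) x)
      rw [hψj' j x] at h1
      exact h1
    obtain ⟨red₀, hred₀⟩ := exists_red w₀ (a := algebraMap K F (a : K))
      (b := algebraMap K F (b : K)) (a' := c.comp φ a)
      (b' := c.comp φ b) (hwK a).1 (hwK b).1 (hwK a).2 (hwK b).2 hdc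
    obtain ⟨pl, hpl, hA, hl0, hl1, hl2, -⟩ := hlr j
    have h1 : red j (locHom (L := (wj j).adicCompletion F)
        (sw (algebraMap K F a) (algebraMap K F b)) (Q i)) = red₀ (Q i) :=
      red_loc F p hp (ψj j) w₀ hw₀ ((wj j).adicCompletion F) pl hpl hred₀ (red j)
        hl0 hl1 (fun x y h hx => (hl2 x y h hx).2) (Q i)
    rw [h1]
    have hcmp : ∀ (a₁ b₁ : M) (e1 : (e j : F →+* M) (algebraMap K F (a : K)) = a₁)
        (e2 : (e j : F →+* M) (algebraMap K F (b : K)) = b₁) (hd1 : Disc a₁ b₁)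
        (redv' : Pt a₁ b₁ → Pt (c.comp φ a) (c.comp φ b)) (_ : IsRd v redv')
        (P' : Pt a₁ b₁) (c' : M) (_ : ∀ t, rep P' t = c' * (e j : F →+* M) (rep (Q i) t)),
        redv' P' = red₀ (Q i) := by
      intro a₁ b₁ e1 e2 hd1 redv' hr' P' c' hc'
      subst e1
      subst e2
      obtain ⟨Jj, hJj⟩ := exists_map (e j : F →+* M) (a := algebraMap K F (a : K))
        (b := algebraMap K F (b : K)) rfl rfl hd1
      have h1 : P' = Jj (Q i) := by
        apply rep_prop P' (Jj (Q i)) c'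
        intro t
        rw [hc' t]
        congr 1
        generalize Q i = Qi
        rcases Qi with _ | ⟨x, y, h⟩
        · have h0 : Jj (Affine.Point.zero : Pt (algebraMap K F (a : K)) (algebraMap K F b)) =
              Affine.Point.zero := map_zero Jj
          have h00 : Jj (Affine.Point.zero : SPt (algebraMap K F (a : K)) (algebraMap K F b)) =
              Affine.Point.zero := h0
          rw [h00]
          fin_cases t <;> simp [rep]
        · obtain ⟨g1, h1⟩ := hJj x y h
          have h11 : Jj (Affine.Point.some x y h : SPt (algebraMap K F (a : K))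
            (algebraMap K F b)) = Affine.Point.some _ _ g1 := h1
          rw [h11]
          fin_cases t <;> simp [rep]
      rw [h1]
      exact red_cmp F k p hp (ψj j) w₀ hw₀ M k (e j : F →+* M) (RingHom.id k) v hvF
        (a' := c.comp φ a) (b' := c.comp φ b) hred₀ hr' (map_zero Jj) hJj
        (jc := id) rfl (fun x y h => ⟨h, rfl⟩) (Q i)
    obtain ⟨c', hc', hc⟩ := hP j i
    exact (hcmp _ _ ((e j).commutes (a : K)) ((e j).commutes (b : K)) hdM redv hredv (P j i) c'
      hc).symm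
  -- points near the origin
  have hbig : ∀ j, ∀ (u : ((sw (algebraMap K F a) (algebraMap K F b)).baseChange
      ((wj j).adicCompletion F)).toAffine.Point) (R : ℝ), 1 < R → Big R u →
      red j u = 0 := by
    intro j u R hR1 hu
    obtain ⟨pl, hpl, hA, hl0, hl1, hl2, -⟩ := hlr j
    rcases u with _ | ⟨x, y, h⟩
    · exact hl0
    · apply hl1
      intro hxA
      have h2 := hu x y h rfl
      have h3 := (hA x).2 hxA
      linarith
  -- the Frobenius map
  have hca : (frobenius k p) (c.comp φ a) = c.comp φ a := by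
    rw [frobenius_def, RingHom.comp_apply, ← map_pow, ZMod.pow_card]
  have hcb : (frobenius k p) (c.comp φ b) = c.comp φ b := by
    rw [frobenius_def, RingHom.comp_apply, ← map_pow, ZMod.pow_card]
  obtain ⟨JF, hJF⟩ := exists_map (frobenius k p) hca hcb hdc
  obtain ⟨g, hg⟩ := exists_frob K M p φ k c ψ hψ
  let E : (F →ₐ[K] M) ≃ (F →ₐ[K] M) :=
    { toFun := fun τ => (g : M →ₐ[K] M).comp τ
      invFun := fun τ => (g.symm : M →ₐ[K] M).comp τ
      left_inv := fun τ => by
        ext x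
        simp
      right_inv := fun τ => by
        ext x
        simp }
  set π : Fin (m + 1) ≃ Fin (m + 1) := (e.trans E).trans e.symm with hπ
  have hπe : ∀ j, ∀ t : F, e (π j) t = g (e j t) := by
    intro j t
    rw [hπ, Equiv.trans_apply, Equiv.apply_symm_apply]
    rfl
  have hψπ : ∀ j, ∀ t : 𝓞 F, ψj (π j) t = ψj j t ^ p := by
    intro j t
    simp only [hψj]
    rw [RingHom.comp_apply, RingHom.comp_apply]
    refine hg (resI (e j : F →+* M) t) (resI (e (π j) : F →+* M) t) ?_
    rw [resI_coe, resI_coe]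
    exact hπe j (t : F)
  have hwπ : ∀ j, wj j = wj (π j) := by
    intro j
    apply HeightOneSpectrum.ext
    ext t
    simp only [hwj]
    rw [mem_hspG, mem_hspG, hψπ j t, pow_eq_zero_iff hp]
  have hζfix : ∀ i, JF (∑ j, red j (z (wj j) i)) = ∑ j, red j (z (wj j) i) := by
    intro i
    rw [map_sum]
    have h1 : ∀ j, JF (red j (z (wj j) i)) = red (π j) (z (wj (π j)) i) := fun j =>
      (locRed_frob p JF (map_zero JF) (fun x y h => by
        obtain ⟨g', hg'⟩ := hJF x y h
        exact ⟨g', hg'⟩) (fun w => z w i) (wj j) (wj (π j)) (hwπ j) (ψj j) (ψj (π j)) (hψπ j)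
        (red j) (red (π j)) (hlr j) (hlr (π j))).symm
    simp only [h1]
    exact Equiv.sum_comp π (fun j => red j (z (wj j) i))
  have hζ : ∀ i, L • (∑ j, red j (z (wj j) i)) = 0 := by
    intro i
    obtain ⟨ζ₀, hζ₀⟩ := pt_fixed p c (a := φ a) (b := φ b) (by
      have h1 : Disc (c (φ a)) (c (φ b)) := hdc
      unfold Disc at h1 ⊢
      intro h0
      apply h1
      have h2 := congrArg c h0
      rw [map_mul, map_add, map_mul, map_mul, map_pow, map_pow, map_ofNat, map_ofNat, map_ofNat,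
        map_zero] at h2
      exact h2)
      (∑ j, red j (z (wj j) i)) (by
      intro x y h h0
      have h1 := hζfix i
      obtain ⟨g', hg'⟩ := hJF x y h
      have h2 : JF (∑ j, red j (z (wj j) i)) = Affine.Point.some _ _ g' := by
        rw [← hg']
        exact congrArg JF h0
      rw [h2] at h1
      have h3 : (Affine.Point.some _ _ g' : Pt (c (φ a)) (c (φ b))) =
        Affine.Point.some x y h := h1.trans h0
      rw [Affine.Point.some.injEq] at h3
      exact h3)
    have h4 : jc ζ₀ = ∑ j, red j (z (wj j) i) := hζ₀ jc (map_zero jc) hjc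
    rw [← h4, ← map_nsmul, hkill, map_zero]
  refine ⟨fun j i => red j (x (wj j) i), ?_, ?_⟩
  · intro j t
    obtain ⟨pl, hpl, hA, hl0, hl1, hl2, hl3⟩ := hlr j
    have hwK : ∀ x : 𝓞 K, algebraMap F ((wj j).adicCompletion F)
        (algebraMap K F (x : K)) ∈ pl.A ∧ pl.r (algebraMap F ((wj j).adicCompletion F)
          (algebraMap K F (x : K))) = c.comp φ x := by
      intro x
      have h1 := hpl (algebraMap (𝓞 K) (𝓞 F) x)
      rw [hψj' j x] at h1
      exact h1
    have h5 := (onX_mbrF G F _ _).1 (hx (wj j) (hpw j)) t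
    choose u hu0 hu using fun i => hl3 (x (wj j) i)
    have h6 := (loc_valG pl ((algebraMap F ((wj j).adicCompletion F)).comp
      ((algebraMap K F).comp (algebraMap (𝓞 K) K))) (c.comp φ) (fun x => hwK x)
      ((algebraMap F ((wj j).adicCompletion F)).comp
      ((algebraMap K F).comp (algebraMap (𝓞 K) K))) (c.comp φ)
      (fun x => hwK x) (fun i => crd (x (wj j) i))
      (fun i => rep (red j (x (wj j) i))) u hu (G t) (d t) (hG t) y).2
    have h7 : vl ((algebraMap F ((wj j).adicCompletion F)).comp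
        ((algebraMap K F).comp (algebraMap (𝓞 K) K)))
        (G t) (fun i => crd (x (wj j) i)) (fun i =>
        ((algebraMap F ((wj j).adicCompletion F)).comp
          ((algebraMap K F).comp (algebraMap (𝓞 K) K))) (y i)) = 0 := h5
    rw [h7, mul_zero, Place.r_zero] at h6
    exact h6.symm
  · intro i
    have h1 : ∀ j, red j (x (wj j) i) = redv (P j i) + L • red j (z (wj j) i) := by
      intro j
      obtain ⟨u, R, hR1, hu, he⟩ := hzz (wj j) i (hpw j)
      rw [he, map_add, map_add, map_nsmul, hbig j u R hR1 hu, add_zero, hglob j i]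
    beta_reduce
    simp only [h1]
    rw [Finset.sum_add_distrib, ← Finset.smul_sum, hζ i, add_zero, ← map_sum redv, hsum J hJ i]
    exact red_cmp K (ZMod p) p hp φ w hw M k (algebraMap K M) c v hvK hred hredv (map_zero J) hJ
      (map_zero jc) hjc (s i)

end Pool.Agent.Y213.CB
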