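import Pool.Agent.Y213.CB.RedG

/-! Places of the completions of a number field, and the action of the Frobenius map. -/

set_option autoImplicit false

namespace Pool.Agent.Y213.CB

open Pool.Agent.H901R3.MS Pool.Agent.H901R3.MS.W_PLK NumberField IsDedekindDomain
open HeightOneSpectrum Pool.Agent.Y213.T6 Pool.Agent.Y213.EC Pool.Agent.TH942 WeierstrassCurve

variable {K : Type} [Field K] [NumberField K]

theorem exists_place_w (v : HeightOneSpectrum (𝓞 K)) {k : Type} [Field k] (φ : 𝓞 K →+* k)
    (hφ : ∀ x, x ∈ v.asIdeal ↔ φ x = 0) :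
    ∃ w : Place (v.adicCompletion K) k,
      (∀ x : 𝓞 K, algebraMap K (v.adicCompletion K) (x : K) ∈ w.A ∧
        w.r (algebraMap K (v.adicCompletion K) (x : K)) = φ x) ∧
      ∀ x, ‖x‖ ≤ 1 ↔ x ∈ w.A := by
  have hex : ∀ x : v.adicCompletionIntegers K, ∃ a : 𝓞 K,
      ‖(x : v.adicCompletion K) - algebraMap K (v.adicCompletion K) (a : K)‖ < 1 := by
    intro x
    refine exists_near_int v x ?_
    rw [Valued.toNormedField.norm_le_one_iff]
    exact x.2
  choose g hg using hex
  have hmem : ∀ a : 𝓞 K, ‖algebraMap K (v.adicCompletion K) (a : K)‖ < 1 ↔ φ a = 0 := by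
    intro a
    rw [← hφ a, ← FinitePlace.norm_lt_one_iff_mem K v a]
    rfl
  have hwd : ∀ (x : v.adicCompletionIntegers K) (a : 𝓞 K),
      ‖(x : v.adicCompletion K) - algebraMap K (v.adicCompletion K) (a : K)‖ < 1 →
      φ (g x) = φ a := by
    intro x a ha
    rw [← sub_eq_zero, ← map_sub, ← hmem]
    have h1 : algebraMap K (v.adicCompletion K) ((g x - a : 𝓞 K) : K) =
        ((x : v.adicCompletion K) - algebraMap K (v.adicCompletion K) (a : K)) +
        -((x : v.adicCompletion K) - algebraMap K (v.adicCompletion K) (g x : K)) := by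
      have e1 : ((g x - a : 𝓞 K) : K) = (g x : K) - (a : K) := rfl
      rw [e1, map_sub]
      ring
    rw [h1]
    refine nn_add v ha ?_
    rw [norm_neg]
    exact hg x
  have hint : ∀ a : 𝓞 K, ‖algebraMap K (v.adicCompletion K) (a : K)‖ ≤ 1 := fun a =>
    FinitePlace.norm_le_one K v a
  let h : v.adicCompletionIntegers K →+* k :=
    { toFun := fun x => φ (g x)
      map_one' := by
        rw [← map_one φ]
        apply hwd
        simp
      map_zero' := by
        rw [← map_zero φ]
        apply hwd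
        simp
      map_add' := by
        intro x y
        rw [← map_add φ]
        apply hwd
        have h1 : ((x + y : v.adicCompletionIntegers K) : v.adicCompletion K) -
            algebraMap K (v.adicCompletion K) ((g x + g y : 𝓞 K) : K) =
            ((x : v.adicCompletion K) - algebraMap K (v.adicCompletion K) (g x : K)) +
            ((y : v.adicCompletion K) - algebraMap K (v.adicCompletion K) (g y : K)) := by
          have e1 : ((g x + g y : 𝓞 K) : K) = (g x : K) + (g y : K) := rfl
          have e2 : ((x + y : v.adicCompletionIntegers K) : v.adicCompletion K) =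
            (x : v.adicCompletion K) + y := rfl
          rw [e1, e2, map_add]
          ring
        rw [h1]
        exact nn_add v (hg x) (hg y)
      map_mul' := by
        intro x y
        rw [← map_mul φ]
        apply hwd
        have h1 : ((x * y : v.adicCompletionIntegers K) : v.adicCompletion K) -
            algebraMap K (v.adicCompletion K) ((g x * g y : 𝓞 K) : K) =
            ((x : v.adicCompletion K) - algebraMap K (v.adicCompletion K) (g x : K)) *
              (y : v.adicCompletion K) +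
            algebraMap K (v.adicCompletion K) (g x : K) *
            ((y : v.adicCompletion K) - algebraMap K (v.adicCompletion K) (g y : K)) := by
          have e1 : ((g x * g y : 𝓞 K) : K) = (g x : K) * (g y : K) := rfl
          have e2 : ((x * y : v.adicCompletionIntegers K) : v.adicCompletion K) =
            (x : v.adicCompletion K) * y := rfl
          rw [e1, e2, map_mul]
          ring
        rw [h1]
        have hy : ‖(y : v.adicCompletion K)‖ ≤ 1 := by
          rw [Valued.toNormedField.norm_le_one_iff]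
          exact y.2
        refine nn_add v ?_ ?_
        · rw [norm_mul]
          calc _ ≤ ‖(x : v.adicCompletion K) - algebraMap K (v.adicCompletion K) (g x : K)‖ * 1 :=
                mul_le_mul_of_nonneg_left hy (norm_nonneg _)
            _ < 1 := by rw [mul_one]; exact hg x
        · rw [norm_mul]
          calc _ ≤ 1 * ‖(y : v.adicCompletion K) - algebraMap K (v.adicCompletion K) (g y : K)‖ :=
                mul_le_mul_of_nonneg_right (hint _) (norm_nonneg _)
            _ < 1 := by rw [one_mul]; exact hg y }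
  have hsmall : ∀ x : v.adicCompletionIntegers K, ‖(x : v.adicCompletion K)‖ < 1 → h x = 0 := by
    intro x hx
    show φ (g x) = 0
    rw [← map_zero φ]
    apply hwd
    simpa using hx
  obtain ⟨w, hw⟩ := place_of (K := v.adicCompletion K) (k := k)
    (R := v.adicCompletionIntegers K) h (by
      intro x hx
      rw [adicCompletionIntegers.isUnit_iff_valued_eq_one]
      have h1 : Valued.v (x : v.adicCompletion K) ≤ 1 := x.2
      refine le_antisymm h1 ?_
      by_contra hcon
      rw [not_le] at hcon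
      apply hx
      apply hsmall
      rw [Valued.toNormedField.norm_lt_one_iff]
      exact hcon)
  refine ⟨w, fun x => ?_, fun x => ⟨fun hx => ?_, fun hx => ?_⟩⟩
  · have h1 := hw (algebraMap (𝓞 K) (v.adicCompletionIntegers K) x)
    refine ⟨h1.1, h1.2.trans ?_⟩
    apply hwd
    have h2 : ((algebraMap (𝓞 K) (v.adicCompletionIntegers K) x : v.adicCompletionIntegers K) :
        v.adicCompletion K) = algebraMap K (v.adicCompletion K) (x : K) := rfl
    rw [h2, sub_self, norm_zero]
    exact one_pos
  · rw [Valued.toNormedField.norm_le_one_iff] at hx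
    exact (hw ⟨x, hx⟩).1
  · by_contra hcon
    rw [not_le] at hcon
    have hx0 : x ≠ 0 := by
      intro h0
      rw [h0, norm_zero] at hcon
      linarith
    have h1 : ‖x⁻¹‖ < 1 := by
      rw [norm_inv]
      exact inv_lt_one_of_one_lt₀ hcon
    have h2 : Valued.v x⁻¹ ≤ 1 := by
      rw [← Valued.toNormedField.norm_le_one_iff]
      exact h1.le
    have h3 := hw ⟨x⁻¹, h2⟩
    have h4 : h ⟨x⁻¹, h2⟩ = 0 := hsmall _ h1
    have h5 : algebraMap (v.adicCompletionIntegers K) (v.adicCompletion K) ⟨x⁻¹, h2⟩ = x⁻¹ := rfl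
    rw [h5, h4] at h3
    have h6 := w.r_mul hx h3.1
    rw [h3.2, mul_zero, mul_inv_cancel₀ hx0, w.r_one] at h6
    exact one_ne_zero h6

/-- the reductions of a point of the completion for a homomorphism `φ` and for its Frobenius twist -/
theorem red_frob (v : HeightOneSpectrum (𝓞 K)) {k : Type} [Field k] (p : ℕ) [Fact p.Prime]
    [CharP k p] (φ₁ φ₂ : 𝓞 K →+* k) (hφ : ∀ x, φ₂ x = φ₁ x ^ p)
    (w₁ w₂ : Place (v.adicCompletion K) k)
    (h₁ : ∀ x : 𝓞 K, w₁.r (algebraMap K (v.adicCompletion K) (x : K)) = φ₁ x)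
    (h₂ : ∀ x : 𝓞 K, w₂.r (algebraMap K (v.adicCompletion K) (x : K)) = φ₂ x)
    (hA₁ : ∀ x, ‖x‖ ≤ 1 ↔ x ∈ w₁.A) (hA₂ : ∀ x, ‖x‖ ≤ 1 ↔ x ∈ w₂.A)
    (W : WeierstrassCurve (v.adicCompletion K)) {a' b' : k}
    (red₁ red₂ : W.toAffine.Point → Pt a' b')
    (z₁ : red₁ Affine.Point.zero = Affine.Point.zero)
    (z₂ : red₂ Affine.Point.zero = Affine.Point.zero)
    (n₁ : ∀ (x y : v.adicCompletion K) (h : W.toAffine.Nonsingular x y), x ∉ w₁.A →
        red₁ (Affine.Point.some x y h) = Affine.Point.zero)
    (n₂ : ∀ (x y : v.adicCompletion K) (h : W.toAffine.Nonsingular x y), x ∉ w₂.A →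
        red₂ (Affine.Point.some x y h) = Affine.Point.zero)
    (s₁ : ∀ (x y : v.adicCompletion K) (h : W.toAffine.Nonsingular x y), x ∈ w₁.A → y ∈ w₁.A ∧
        ∃ g : (CV a' b').toAffine.Nonsingular (w₁.r x) (w₁.r y),
          red₁ (Affine.Point.some x y h) = Affine.Point.some _ _ g)
    (s₂ : ∀ (x y : v.adicCompletion K) (h : W.toAffine.Nonsingular x y), x ∈ w₂.A → y ∈ w₂.A ∧
        ∃ g : (CV a' b').toAffine.Nonsingular (w₂.r x) (w₂.r y),
          red₂ (Affine.Point.some x y h) = Affine.Point.some _ _ g)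
    (J : Pt a' b' → Pt a' b') (hJ0 : J Affine.Point.zero = Affine.Point.zero)
    (hJ : ∀ (x y : k) (h : (CV a' b').toAffine.Nonsingular x y),
      ∃ g : (CV a' b').toAffine.Nonsingular (x ^ p) (y ^ p),
        J (Affine.Point.some x y h) = Affine.Point.some _ _ g) (P : W.toAffine.Point) :
    red₂ P = J (red₁ P) := by
  have key : ∀ x : v.adicCompletion K, x ∈ w₁.A → w₂.r x = w₁.r x ^ p := by
    intro x hx
    obtain ⟨a, ha⟩ := exists_near_int v x ((hA₁ x).2 hx)
    have hsm : ∀ (w : Place (v.adicCompletion K) k) (hA : ∀ x, ‖x‖ ≤ 1 ↔ x ∈ w.A)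
        (u : v.adicCompletion K), ‖u‖ < 1 → w.r u = 0 := by
      intro w hA u hu
      by_contra h0
      have hu1 : u ∈ w.A := (hA u).1 hu.le
      have hu0 : u ≠ 0 := by
        rintro rfl
        exact h0 w.r_zero
      have h3 : u⁻¹ ∈ w.A := by
        have h4 := w.div_mem (x := 1) (y := u) w.A.one_mem h0
        rwa [one_div] at h4
      have h4 := (hA _).2 h3
      rw [norm_inv] at h4
      have h5 : 0 < ‖u‖ := norm_pos_iff.2 hu0
      have h6 : 1 < ‖u‖⁻¹ := (one_lt_inv₀ h5).2 hu
      linarith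
    have ham : ∀ (w : Place (v.adicCompletion K) k) (hA : ∀ x, ‖x‖ ≤ 1 ↔ x ∈ w.A),
        w.r x = w.r (algebraMap K (v.adicCompletion K) (a : K)) := by
      intro w hA
      have h1 : x = algebraMap K (v.adicCompletion K) (a : K) +
          (x - algebraMap K (v.adicCompletion K) (a : K)) := by ring
      have h2 : algebraMap K (v.adicCompletion K) (a : K) ∈ w.A :=
        (hA _).1 (FinitePlace.norm_le_one K v a)
      conv_lhs => rw [h1]
      rw [w.r_add h2 ((hA _).1 ha.le), hsm w hA _ ha, add_zero]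
    rw [ham w₂ hA₂, ham w₁ hA₁, h₂, h₁, hφ]
  rcases P with _ | ⟨x, y, h⟩
  · rw [z₂, z₁, hJ0]
  · by_cases hx : x ∈ w₁.A
    · obtain ⟨hy, g1, e1⟩ := s₁ x y h hx
      obtain ⟨_, g2, e2⟩ := s₂ x y h ((hA₂ x).1 ((hA₁ x).2 hx))
      obtain ⟨g3, e3⟩ := hJ _ _ g1
      rw [e1, e2, e3, Affine.Point.some.injEq]
      exact ⟨key x hx, key y hy⟩
    · have hx2 : x ∉ w₂.A := fun h' => hx ((hA₁ x).1 ((hA₂ x).2 h'))
      rw [n₁ x y h hx, n₂ x y h hx2, hJ0]

/-- a point with coordinates fixed by the Frobenius map is rational over the prime field -/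
theorem pt_fixed {k : Type} [Field k] (p : ℕ) [Fact p.Prime] [CharP k p] (c : ZMod p →+* k)
    {a b : ZMod p} (hd : Disc a b) (P : Pt (c a) (c b))
    (hP : ∀ (x y : k) (h : (CV (c a) (c b)).toAffine.Nonsingular x y),
      P = Affine.Point.some x y h → x ^ p = x ∧ y ^ p = y) :
    ∃ P₀ : Pt a b, ∀ jc : Pt a b → Pt (c a) (c b), jc Affine.Point.zero = Affine.Point.zero →
      (∀ (x y : ZMod p) (h : (CV a b).toAffine.Nonsingular x y),
        ∃ g : (CV (c a) (c b)).toAffine.Nonsingular (c x) (c y),
          jc (Affine.Point.some x y h) = Affine.Point.some _ _ g) → jc P₀ = P := by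
  have hfix : ∀ x : k, x ^ p = x → ∃ x₀ : ZMod p, c x₀ = x := by
    intro x hx
    rw [← Subfield.mem_bot_iff_pow_eq_self] at hx
    have h1 : (⊥ : Subfield k) ≤ c.fieldRange := bot_le
    exact h1 hx
  rcases P with _ | ⟨x, y, h⟩
  · exact ⟨Affine.Point.zero, fun jc h0 _ => h0⟩
  · obtain ⟨hx, hy⟩ := hP x y h rfl
    obtain ⟨x₀, rfl⟩ := hfix x hx
    obtain ⟨y₀, rfl⟩ := hfix y hy
    have h' : (CV a b).toAffine.Nonsingular x₀ y₀ := by
      rw [nonsingular_iff hd]
      have h5 := eqn_of h
      unfold Eqn at h5 ⊢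
      apply c.injective
      rw [map_add, map_add, map_mul, map_pow, map_pow]
      exact h5
    refine ⟨Affine.Point.some x₀ y₀ h', fun jc _ hjc => ?_⟩
    obtain ⟨g, hg⟩ := hjc x₀ y₀ h'
    rw [hg]

end Pool.Agent.Y213.CB
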