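import Pool.Agent.Y213.CB.PlcG
import Pool.Agent.Y213.BD.Final
import Pool.Agent.Y213.T6.FinH

/-! Reduction of the points over the completions of an extension field. -/

set_option autoImplicit false

namespace Pool.Agent.Y213.CB

open MvPolynomial NumberField Pool.Agent.H901R3.MS WeierstrassCurve IsDedekindDomain
open Pool.Agent.Y213.EC Pool.Agent.TH954 Pool.Agent.TH942 Pool.Agent.Y213.BD

theorem exists_redG {L k : Type} [Field L] [Field k] [DecidableEq L] [DecidableEq k]
    (w : Place L k) {a b : L} {a' b' : k} (ha : a ∈ w.A) (hb : b ∈ w.A) (ha' : w.r a = a')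
    (hb' : w.r b = b') (hd : Disc a' b') (W : WeierstrassCurve L) (hW : W = CV a b) :
    ∃ red : W.toAffine.Point →+ Pt a' b',
      (∀ (x y : L) (h : W.toAffine.Nonsingular x y), x ∉ w.A →
        red (Affine.Point.some x y h) = 0) ∧
      (∀ (x y : L) (h : W.toAffine.Nonsingular x y), x ∈ w.A →
        ∃ g : (CV a' b').toAffine.Nonsingular (w.r x) (w.r y),
          red (Affine.Point.some x y h) = Affine.Point.some _ _ g) ∧
      ∀ P : W.toAffine.Point, ∃ u : L, u ≠ 0 ∧ ∀ j, u * crd P j ∈ w.A ∧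
        w.r (u * crd P j) = rep (red P) j := by
  subst hW
  obtain ⟨red, hred⟩ := exists_red w ha hb ha' hb' hd
  refine ⟨red, hred.2.1, fun x y h hx => (hred.2.2 x y h hx).2, fun P => ?_⟩
  obtain ⟨u, hu, h⟩ := rep_red w ha hb ha' hb' hred P
  refine ⟨u, hu, fun j => ?_⟩
  have h1 : crd P j = rep P j := by
    rcases P with _ | ⟨x, y, h⟩ <;> rfl
  rw [h1]
  exact h j

/-- the reduction of a point of the field over the completion -/
theorem red_loc (F : Type) [Field F] [NumberField F] [DecidableEq F] (p : ℕ) (hp : p ≠ 0)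
    {k : Type} [Field k] [CharP k p] (ψ : 𝓞 F →+* k) (w₀ : Place F k)
    (hw₀ : ∀ x : 𝓞 F, (x : F) ∈ w₀.A ∧ w₀.r (x : F) = ψ x) (L : Type) [Field L] [DecidableEq L]
    [Algebra F L] (w : Place L k) (hw : ∀ x : 𝓞 F, algebraMap F L (x : F) ∈ w.A ∧
      w.r (algebraMap F L (x : F)) = ψ x) {a b : F} {a' b' : k}
    {red₀ : Pt a b → Pt a' b'} (hr₀ : IsRd w₀ red₀)
    (red : ((sw a b).baseChange L).toAffine.Point → Pt a' b')
    (h0 : red Affine.Point.zero = Affine.Point.zero)
    (h1 : ∀ (x y : L) (h : ((sw a b).baseChange L).toAffine.Nonsingular x y), x ∉ w.A →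
        red (Affine.Point.some x y h) = 0)
    (h2 : ∀ (x y : L) (h : ((sw a b).baseChange L).toAffine.Nonsingular x y), x ∈ w.A →
        ∃ g : (CV a' b').toAffine.Nonsingular (w.r x) (w.r y),
          red (Affine.Point.some x y h) = Affine.Point.some _ _ g) (Q : SPt a b) :
    red (locHom (L := L) (sw a b) Q) = red₀ Q := by
  rcases Q with _ | ⟨x, y, h⟩
  · have h3 : (Affine.Point.zero : SPt a b) = 0 := rfl
    rw [h3, map_zero]
    have h4 : red₀ (0 : SPt a b) = Affine.Point.zero := hr₀.1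
    rw [h4]
    exact h0
  · obtain ⟨h', he⟩ := locHom_some (L := L) (sw a b) h
    rw [he]
    obtain ⟨c1, c2⟩ := place_cmp F k p hp ψ w₀ hw₀ L k (algebraMap F L) (RingHom.id k) w hw x
    by_cases hx : x ∈ w₀.A
    · obtain ⟨hy, g1, hg1⟩ := hr₀.2.2 x y h hx
      obtain ⟨h3, h4⟩ := c1 hx
      obtain ⟨g2, hg2⟩ := h2 _ _ h' h3
      have h5 := ((place_cmp F k p hp ψ w₀ hw₀ L k (algebraMap F L) (RingHom.id k) w hw
        y).1 hy).2
      have h6 : red₀ (Affine.Point.some x y h : SPt a b) = Affine.Point.some _ _ g1 := hg1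
      rw [hg2, h6, Affine.Point.some.injEq]
      exact ⟨h4, h5⟩
    · have h6 : red₀ (Affine.Point.some x y h : SPt a b) = Affine.Point.zero :=
        hr₀.2.1 x y h hx
      rw [h1 _ _ h' (c2 hx), h6]
      rfl

/-- points are determined by their coordinates up to a factor -/
theorem rep_prop {F : Type} [Field F] {a b : F} (P Q : Pt a b) (c : F)
    (h : ∀ t, rep P t = c * rep Q t) : P = Q := by
  rcases P with _ | ⟨x, y, hP⟩ <;> rcases Q with _ | ⟨x', y', hQ⟩
  · rfl
  · have h1 := h 1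
    have h2 := h 2
    simp [rep] at h1 h2
    rw [← h2, zero_mul] at h1
    exact absurd h1 one_ne_zero
  · have h2 := h 2
    simp [rep] at h2
  · have h0 := h 0
    have h1 := h 1
    have h2 := h 2
    simp [rep] at h0 h1 h2
    rw [← h2, one_mul] at h0 h1
    subst h0
    subst h1
    rfl

end Pool.Agent.Y213.CB
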