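import Pool.Agent.Y213.CB.Fin2
import Pool.Agent.Y213.T6.SecMain

/-! Locally geometric sections over an extension of bounded degree. -/

set_option autoImplicit false

namespace Pool.Agent.Y213.CB

open MvPolynomial NumberField Pool.Agent.H901R3.MS WeierstrassCurve IsDedekindDomain
open Pool.Agent.Y213.EC Pool.Agent.TH954 Pool.Agent.TH942 Pool.Agent.Y213.BD
open Pool.Agent.W620.SC
open Pool.Agent.Y213.T6 (loc_valG bc_eq shortInt_sw sec_near)

theorem mbrF_multiHom {K : Type} [Field K] {r n q : ℕ} (G : Fin q → Pol (𝓞 K) r n)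
    (d : Fin q → Fin r → ℕ) (hG : ∀ e, MHomog (G e) (d e)) (F : Type) [Field F] [Algebra K F]
    (t : Fin n → K) : ∀ f ∈ mbrF G F t, ∃ d, MultiHom d f := by
  classical
  rintro _ ⟨e, rfl⟩
  refine ⟨d e, ?_⟩
  have h1 : eval₂ (C.comp ((algebraMap K F).comp (algebraMap (𝓞 K) K)))
      (Sum.elim X (fun i => C (algebraMap K F (t i)))) (G e) =
      ∑ m ∈ (G e).support, monomial
        (Finsupp.equivFunOnFinite.symm fun ij : Fin r × Fin 3 => m (Sum.inl ij))
        (algebraMap K F (algebraMap (𝓞 K) K (coeff m (G e))) *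
          ∏ k, (algebraMap K F (t k)) ^ m (Sum.inr k)) := by
    rw [eval₂_eq']
    refine Finset.sum_congr rfl fun m _ => ?_
    rw [Fintype.prod_sum_type, monomial_eq, Finsupp.prod_fintype _ _ (fun i => by simp)]
    simp only [RingHom.comp_apply, C_mul, map_prod, map_pow, Sum.elim_inl, Sum.elim_inr,
      Finsupp.equivFunOnFinite_symm_apply_apply]
    ring
  intro m hm i
  simp only at hm
  rw [h1] at hm
  have h2 := support_sum hm
  rw [Finset.mem_biUnion] at h2
  obtain ⟨m', hm', h3⟩ := h2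
  have h4 := support_monomial_subset h3
  rw [Finset.mem_singleton] at h4
  rw [h4]
  exact hG e m' hm' i

open scoped Classical in
theorem svPt_of_section {K : Type} [Field K] [NumberField K] {r n q : ℕ} (a b : 𝓞 K)
    (hd : 4 * a ^ 3 + 27 * b ^ 2 ≠ 0) (G : Fin q → Pol (𝓞 K) r n)
    (d : Fin q → Fin r → ℕ) (hG : ∀ e, MHomog (G e) (d e)) (m : ℕ) (y : Fin n → K)
    (F : Type) [Field F] [NumberField F] [Algebra K F] (hdeg : Module.finrank K F = m + 1)
    {M0 : ℕ} (hM1 : 1 ≤ M0) (hM : ShaKilledBy (sw (algebraMap K F a) (algebraMap K F b)) M0)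
    {F' Ω M B : Type} [Field F'] [Field Ω] [Field M]
    [Field B] [Algebra F F'] [Algebra F' Ω] [Algebra F Ω] [IsScalarTower F F' Ω] [Algebra F' M]
    [Algebra F M] [IsScalarTower F F' M] [Algebra F B] [IsAlgClosure F' Ω] [IsAlgClosure F B]
    (U : Set (ValuationSubring F')) (hU : ∀ O ∈ U, ∀ c : F, algebraMap F F' c ∈ O)
    (e : M →ₐ[F'] Ω) (he : unramified F' Ω U ≤ e.fieldRange)
    (P : Fin r → ((sw (algebraMap K F a) (algebraMap K F b)).baseChange F').toAffine.Point)
    (hPS : OnX (mbrF G F y) (fun i => crd (P i))) (s : GalSection F F' M B)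
    (p : ∀ v : HeightOneSpectrum (𝓞 F), Plc F M (AlgebraicClosure (v.adicCompletion F)))
    (hp : ∀ v, s.GivenBy (v.adicCompletion F) (p v)) : SvPt a b G m y := by
  refine ⟨F, inferInstance, inferInstance, inferInstance, hdeg, fun L hL => ?_⟩
  have hinj : Function.Injective (algebraMap (𝓞 K) (𝓞 F)) :=
    FaithfulSMul.algebraMap_injective (𝓞 K) (𝓞 F)
  set aF : 𝓞 F := algebraMap (𝓞 K) (𝓞 F) a with haF
  set bF : 𝓞 F := algebraMap (𝓞 K) (𝓞 F) b with hbF
  have hdF : 4 * aF ^ 3 + 27 * bF ^ 2 ≠ 0 := by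
    intro h0
    apply hd
    apply hinj
    rw [map_zero, ← h0, haF, hbF]
    simp only [map_add, map_mul, map_pow, map_ofNat]
  have hE : ShortInt (sw (algebraMap K F a) (algebraMap K F b)) := shortInt_sw aF bF hdF
  obtain ⟨Q, x, hx, hz⟩ := sec_near hE hM1 hM (mbrF G F y) (mbrF_multiHom G d hG F y) U hU e he
    P hPS s p hp L hL
  refine ⟨Q, x, hx, fun w i => ?_⟩
  obtain ⟨z, hz⟩ := hz w i
  refine ⟨z, 0, 2, one_lt_two, ?_, ?_⟩
  · intro x y h h0
    exact absurd h0.symm (Affine.Point.some_ne_zero h)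
  · rw [← hz]
    abel

end Pool.Agent.Y213.CB
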